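import Pool.Agent.Helper60.RT.Defs2

/-!
# RT-Q2: counting in a sector
-/

open MeasureTheory Real Set Filter Topology

set_option autoImplicit false

namespace Pool.Agent.Helper60.RT

open Pool.Agent.Helper92.GC (dt tp Tq uu tt arc dd sqa m6)
open Pool.Agent.Helper60.LT (Fr)

/-- the vectors of the cone -/
theorem cn_bd65 {N : ℕ} {k : ℤ × ℤ} (hk : k ∈ cn N) : (N : ℤ) ≤ k.1 ∧ k.1 < 2 * N ∧ 0 < k.1 := by
  classical
  unfold cn sqa at hk
  rw [Finset.mem_filter, Finset.mem_filter] at hk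
  obtain ⟨⟨-, h1, h2, -⟩, h4, h5⟩ := hk
  have h6 : 0 < k.1 := by linarith
  have h7 : |k.1| = k.1 := abs_of_pos h6
  rw [h7] at h1 h2
  refine ⟨?_, h2, h6⟩
  rcases h1 with h | h
  · exact h
  · refine h.trans (abs_le.2 ⟨by linarith, h5⟩)

theorem tt65 (k : ℤ × ℤ) : tt 0 k = (k.2 : ℝ) / k.1 := by
  unfold tt uu
  simp

/-- separated points of an interval -/
theorem sep_card65 {α : Type} (F : Finset α) (f : α → ℝ) {a L δ : ℝ} (hδ : 0 < δ) (hL : 0 ≤ L)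
    (hf : ∀ x ∈ F, a ≤ f x ∧ f x ≤ a + L) (hs : ∀ x ∈ F, ∀ y ∈ F, x ≠ y → δ ≤ |f x - f y|) :
    (F.card : ℝ) ≤ L / δ + 1 := by
  have h1 : F.card ≤ (Finset.range (⌊L / δ⌋₊ + 1)).card := by
    refine Finset.card_le_card_of_injOn (fun x => ⌊(f x - a) / δ⌋₊) (fun x hx => ?_) ?_
    · have h2 := hf x hx
      rw [Finset.mem_coe, Finset.mem_range, Nat.lt_succ_iff]
      exact Nat.floor_le_floor (div_le_div_of_nonneg_right (by linarith) hδ.le)
    · intro x hx y hy hxy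
      by_contra hne
      have h3 := hs x hx y hy hne
      have hx0 : 0 ≤ (f x - a) / δ := div_nonneg (by linarith [(hf x hx).1]) hδ.le
      have hy0 : 0 ≤ (f y - a) / δ := div_nonneg (by linarith [(hf y hy).1]) hδ.le
      have hxy' : ⌊(f x - a) / δ⌋₊ = ⌊(f y - a) / δ⌋₊ := hxy
      have x1 := Nat.floor_le hx0
      have x2 := Nat.lt_floor_add_one ((f x - a) / δ)
      have y1 := Nat.floor_le hy0
      have y2 := Nat.lt_floor_add_one ((f y - a) / δ)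
      rw [hxy'] at x1 x2
      have h4 : |(f x - a) / δ - (f y - a) / δ| < 1 := by
        rw [abs_lt]
        constructor <;> linarith
      rw [← sub_div, abs_div, abs_of_pos hδ, div_lt_one hδ] at h4
      have h5 : f x - a - (f y - a) = f x - f y := by ring
      rw [h5] at h4
      linarith
  rw [Finset.card_range] at h1
  have h2 : (F.card : ℝ) ≤ (⌊L / δ⌋₊ : ℝ) + 1 := by exact_mod_cast h1
  have h3 := Nat.floor_le (div_nonneg hL hδ.le)
  linarith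

/-- the determinant of two vectors with the same content -/
theorem det_ge65 {k k' : ℤ × ℤ} {g : ℕ} (h1 : 0 < k.1) (h1' : 0 < k'.1) (hg : Int.gcd k.1 k.2 = g) (hg' : Int.gcd k'.1 k'.2 = g)
    (hne : k ≠ k') : (g : ℤ) ^ 2 ≤ |k.2 * k'.1 - k.1 * k'.2| := by
  have hg0 : 0 < Int.gcd k.1 k.2 := Int.gcd_pos_of_ne_zero_left _ h1.ne'
  have hg0' : 0 < Int.gcd k'.1 k'.2 := Int.gcd_pos_of_ne_zero_left _ h1'.ne'
  obtain ⟨n1, n2, hc, e1, e2⟩ := Int.exists_gcd_one hg0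
  obtain ⟨m1, m2, hc', e1', e2'⟩ := Int.exists_gcd_one hg0'
  rw [hg] at e1 e2 hg0
  rw [hg'] at e1' e2'
  have gp : (0 : ℤ) < g := by exact_mod_cast hg0
  have hn1 : 0 < n1 := by
    by_contra hcon
    push Not at hcon
    have : n1 * g ≤ 0 := mul_nonpos_of_nonpos_of_nonneg hcon gp.le
    linarith
  have hm1 : 0 < m1 := by
    by_contra hcon
    push Not at hcon
    have : m1 * g ≤ 0 := mul_nonpos_of_nonpos_of_nonneg hcon gp.le
    linarith
  have hcop : IsCoprime n1 n2 := Int.isCoprime_iff_gcd_eq_one.2 hc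
  have hcop' : IsCoprime m1 m2 := Int.isCoprime_iff_gcd_eq_one.2 hc'
  have key : n2 * m1 - n1 * m2 ≠ 0 := by
    intro h0
    have h2 : n1 * m2 = n2 * m1 := by linarith
    have d1 : n1 ∣ m1 := by
      have : n1 ∣ n2 * m1 := ⟨m2, h2.symm⟩
      exact hcop.dvd_of_dvd_mul_left this
    have d2 : m1 ∣ n1 := by
      have : m1 ∣ m2 * n1 := ⟨n2, by linarith⟩
      exact hcop'.dvd_of_dvd_mul_left this
    have e3 : n1 = m1 := by
      have a1 := Int.le_of_dvd hm1 d1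
      have a2 := Int.le_of_dvd hn1 d2
      omega
    have e4 : n2 = m2 := by
      rw [e3] at h2
      have := mul_left_cancel₀ hm1.ne' (h2.trans (mul_comm n2 m1))
      exact this.symm
    exact hne (Prod.ext (by rw [e1, e1', e3]) (by rw [e2, e2', e4]))
  have h3 : k.2 * k'.1 - k.1 * k'.2 = (n2 * m1 - n1 * m2) * (g : ℤ) ^ 2 := by
    rw [e1, e2, e1', e2']
    ring
  rw [h3, abs_mul, abs_of_pos (by positivity : (0 : ℤ) < (g : ℤ) ^ 2)]
  have h4 : 1 ≤ |n2 * m1 - n1 * m2| := Int.one_le_abs key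
  have h5 : (0 : ℤ) < (g : ℤ) ^ 2 := by positivity
  nlinarith

/-- the vectors of content `g` in a sector -/
theorem card_g65 {N : ℕ} {W τ : ℝ} {S : Finset (ℤ × ℤ)} (hN : 1 ≤ N) (hW : 0 ≤ W) (hS : S ⊆ cn N) (ht : ∀ k ∈ S, |tt 0 k - τ| ≤ W)
    {g : ℕ} (hg : 1 ≤ g) : ((S.filter (fun k => Int.gcd k.1 k.2 = g)).card : ℝ) ≤ 8 * (N ^ 2 * W) * (1 / (g : ℝ) ^ 2) + 1 := by
  have hN0 : (0 : ℝ) < N := by exact_mod_cast hN
  have hg0 : (0 : ℝ) < g := by exact_mod_cast hg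
  have h := sep_card65 (S.filter (fun k => Int.gcd k.1 k.2 = g)) (fun k => tt 0 k) (a := τ - W) (L := 2 * W)
    (δ := (g : ℝ) ^ 2 / (4 * N ^ 2)) (by positivity) (by positivity) (fun k hk => ?_) (fun k hk k' hk' hne => ?_)
  · refine h.trans (le_of_eq ?_)
    field_simp
    ring
  · have h1 := abs_le.1 (ht k (Finset.mem_filter.1 hk).1)
    constructor <;> linarith
  · obtain ⟨h1, h2⟩ := Finset.mem_filter.1 hk
    obtain ⟨h1', h2'⟩ := Finset.mem_filter.1 hk'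
    obtain ⟨a1, a2, a3⟩ := cn_bd65 (hS h1)
    obtain ⟨b1, b2, b3⟩ := cn_bd65 (hS h1')
    have h3 := det_ge65 a3 b3 h2 h2' hne
    have h4 : (g : ℝ) ^ 2 ≤ |(k.2 : ℝ) * k'.1 - k.1 * k'.2| := by exact_mod_cast h3
    have c1 : (0 : ℝ) < k.1 := by exact_mod_cast a3
    have c2 : (0 : ℝ) < k'.1 := by exact_mod_cast b3
    have c3 : (k.1 : ℝ) ≤ 2 * N := by exact_mod_cast a2.le
    have c4 : (k'.1 : ℝ) ≤ 2 * N := by exact_mod_cast b2.le
    show _ ≤ |tt 0 k - tt 0 k'|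
    rw [tt65, tt65, div_sub_div _ _ c1.ne' c2.ne', abs_div, abs_of_pos (mul_pos c1 c2)]
    refine div_le_div₀ (abs_nonneg _) h4 (mul_pos c1 c2) ?_
    calc (k.1 : ℝ) * k'.1 ≤ 2 * N * (2 * N) := mul_le_mul c3 c4 c2.le (by positivity)
      _ = 4 * (N : ℝ) ^ 2 := by ring

/-- the vectors with small determinant with a given vector -/
theorem card_det65 {N : ℕ} {S : Finset (ℤ × ℤ)} (hN : 1 ≤ N) (hS : S ⊆ cn N) {k : ℤ × ℤ} (hk : k ∈ S) {D₁ : ℝ} (hD : 1 ≤ D₁)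
    (F : Finset (ℤ × ℤ)) (hF : ∀ k' ∈ F, k' ∈ S ∧ |((dd k k' : ℤ) : ℝ)| ≤ D₁) :
    (F.card : ℝ) ≤ 4 * D₁ + 2 * (Int.gcd k.1 k.2 : ℝ) := by
  obtain ⟨a1, a2, a3⟩ := cn_bd65 (hS hk)
  have hg0 : 0 < Int.gcd k.1 k.2 := Int.gcd_pos_of_ne_zero_left _ a3.ne'
  obtain ⟨n1, n2, hc, e1, e2⟩ := Int.exists_gcd_one hg0
  obtain ⟨g, hg⟩ : ∃ g : ℕ, g = Int.gcd k.1 k.2 := ⟨_, rfl⟩
  rw [← hg] at e1 e2 hg0 ⊢
  have gp : (0 : ℤ) < g := by exact_mod_cast hg0
  have gr : (0 : ℝ) < g := by exact_mod_cast hg0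
  have g1 : (1 : ℝ) ≤ g := by exact_mod_cast hg0
  have hn1 : 0 < n1 := by
    by_contra hcon
    push Not at hcon
    have : n1 * g ≤ 0 := mul_nonpos_of_nonpos_of_nonneg hcon gp.le
    linarith
  have hcop : IsCoprime n1 n2 := Int.isCoprime_iff_gcd_eq_one.2 hc
  obtain ⟨J, hJ⟩ : ∃ J : ℤ, J = ⌊D₁ / g⌋ := ⟨_, rfl⟩
  have hJ0 : 0 ≤ J := by
    rw [hJ]
    exact Int.floor_nonneg.2 (by positivity)
  have hJ1 : (J : ℝ) ≤ D₁ / g := by
    rw [hJ]
    exact Int.floor_le _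
  have h1 : F.card ≤ (Finset.Icc (-J) J ×ˢ Finset.Icc ((N : ℤ) / n1) (2 * N / n1)).card := by
    refine Finset.card_le_card_of_injOn (fun k' => (n1 * k'.2 - n2 * k'.1, k'.1 / n1)) (fun k' hk' => ?_) ?_
    · obtain ⟨b0, b1⟩ := hF k' hk'
      obtain ⟨c1, c2, c3⟩ := cn_bd65 (hS b0)
      rw [Finset.mem_coe, Finset.mem_product, Finset.mem_Icc, Finset.mem_Icc]
      simp only
      have e3 : dd k k' = (n1 * k'.2 - n2 * k'.1) * g := by
        unfold dd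
        rw [e1, e2]
        ring
      rw [e3] at b1
      push_cast at b1
      rw [abs_mul, abs_of_pos gr] at b1
      have b2 : |((n1 * k'.2 - n2 * k'.1 : ℤ) : ℝ)| ≤ D₁ / g := by
        rw [le_div_iff₀ gr]
        push_cast
        exact b1
      have b3 := abs_le.1 b2
      refine ⟨⟨?_, ?_⟩, ?_, ?_⟩
      · have : -(n1 * k'.2 - n2 * k'.1) ≤ J := by
          rw [hJ]
          refine Int.le_floor.2 ?_
          push_cast
          push_cast at b3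
          linarith [b3.1]
        linarith
      · rw [hJ]
        refine Int.le_floor.2 ?_
        exact b3.2
      · exact Int.ediv_le_ediv hn1 c1
      · exact Int.ediv_le_ediv hn1 c2.le
    · intro x hx y hy hxy
      have hxy1 : n1 * x.2 - n2 * x.1 = n1 * y.2 - n2 * y.1 := congrArg Prod.fst hxy
      have hxy2 : x.1 / n1 = y.1 / n1 := congrArg Prod.snd hxy
      have h2 : n1 * (x.2 - y.2) = n2 * (x.1 - y.1) := by linarith
      have h3 : n1 ∣ x.1 - y.1 := hcop.dvd_of_dvd_mul_left ⟨x.2 - y.2, h2.symm⟩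
      have h4 : x.1 % n1 = y.1 % n1 := Int.emod_eq_emod_iff_emod_sub_eq_zero.2 (Int.emod_eq_zero_of_dvd h3)
      have h5 : x.1 = y.1 := by
        rw [← Int.mul_ediv_add_emod x.1 n1, ← Int.mul_ediv_add_emod y.1 n1, hxy2, h4]
      have h6 : x.2 = y.2 := by
        rw [h5, sub_self, mul_zero] at h2
        rcases mul_eq_zero.1 h2 with h | h
        · exact absurd h hn1.ne'
        · linarith
      exact Prod.ext h5 h6
  have h2 : (Finset.Icc (-J) J).card = (2 * J + 1).toNat := by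
    rw [Int.card_Icc]
    congr 1
    ring
  have h3 : (2 * (N : ℤ)) / n1 ≤ (N : ℤ) / n1 + g := by
    have k1 : (N : ℤ) < ((N : ℤ) / n1 + 1) * n1 := Int.lt_ediv_add_one_mul_self _ hn1
    have k2 : (N : ℤ) ≤ g * n1 := by
      calc (N : ℤ) ≤ k.1 := a1
        _ = g * n1 := by rw [e1]; ring
    have k3 : (2 * (N : ℤ)) / n1 < (N : ℤ) / n1 + 1 + g := by
      refine Int.ediv_lt_of_lt_mul hn1 ?_
      calc 2 * (N : ℤ) = N + N := by ring
        _ < ((N : ℤ) / n1 + 1) * n1 + g * n1 := by linarith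
        _ = ((N : ℤ) / n1 + 1 + g) * n1 := by ring
    linarith
  have h4 : (Finset.Icc ((N : ℤ) / n1) (2 * N / n1)).card ≤ g + 1 := by
    rw [Int.card_Icc]
    have : 2 * (N : ℤ) / n1 + 1 - (N : ℤ) / n1 ≤ ((g + 1 : ℕ) : ℤ) := by
      push_cast
      linarith
    exact Int.toNat_le.2 this
  rw [Finset.card_product, h2] at h1
  have h5 : (F.card : ℝ) ≤ (2 * D₁ / g + 1) * (2 * g) := by
    have k1 : (F.card : ℝ) ≤ ((2 * J + 1).toNat : ℝ) * ((Finset.Icc ((N : ℤ) / n1) (2 * N / n1)).card : ℝ) := by exact_mod_cast h1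
    have k2 : ((2 * J + 1).toNat : ℝ) = 2 * J + 1 := by
      have : (((2 * J + 1).toNat : ℤ) : ℝ) = ((2 * J + 1 : ℤ) : ℝ) := by rw [Int.toNat_of_nonneg (by linarith)]
      push_cast at this
      exact this
    have k3 : ((Finset.Icc ((N : ℤ) / n1) (2 * N / n1)).card : ℝ) ≤ 2 * g := by
      have : ((Finset.Icc ((N : ℤ) / n1) (2 * N / n1)).card : ℝ) ≤ g + 1 := by exact_mod_cast h4
      linarith
    rw [k2] at k1
    have k4 : (0 : ℝ) ≤ 2 * D₁ / g + 1 := by positivity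
    refine k1.trans (mul_le_mul ?_ k3 (Nat.cast_nonneg _) k4)
    have : 2 * (D₁ / g) = 2 * D₁ / g := by ring
    linarith
  refine h5.trans (le_of_eq ?_)
  field_simp
  ring

theorem sum_inv_sq65 (G : ℕ) : ∑ i ∈ Finset.range G, 1 / ((1 + i : ℕ) : ℝ) ^ 2 ≤ 2 := by
  have h : ∀ n : ℕ, ∑ i ∈ Finset.range (n + 1), 1 / ((1 + i : ℕ) : ℝ) ^ 2 ≤ 2 - 1 / ((n : ℝ) + 1) := by
    intro n
    induction n with
    | zero => norm_num
    | succ n ih =>
      rw [Finset.sum_range_succ]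
      have h1 : 1 / ((1 + (n + 1) : ℕ) : ℝ) ^ 2 ≤ 1 / ((n : ℝ) + 1) - 1 / ((n + 1 : ℕ) + 1 : ℝ) := by
        push_cast
        have e : 1 / ((n : ℝ) + 1) - 1 / ((n : ℝ) + 1 + 1) = 1 / (((n : ℝ) + 1) * ((n : ℝ) + 1 + 1)) := by
          field_simp
          ring
        rw [e]
        refine one_div_le_one_div_of_le (by positivity) ?_
        nlinarith [(Nat.cast_nonneg n : (0 : ℝ) ≤ n)]
      linarith
  rcases G with _ | G
  · simp
  · have h1 := h G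
    have : (0 : ℝ) ≤ 1 / ((G : ℝ) + 1) := by positivity
    linarith

theorem sum_inv65 (G : ℕ) : ∑ i ∈ Finset.range G, 1 / ((1 + i : ℕ) : ℝ) ≤ 1 + log G := by
  have h := harmonic_le_one_add_log G
  unfold harmonic at h
  push_cast at h
  refine le_trans (le_of_eq (Finset.sum_congr rfl fun i _ => ?_)) h
  push_cast
  rw [one_div, add_comm]

open Classical in
theorem prs_card65 (S : Finset (ℤ × ℤ)) (D₁ : ℝ) :
    (prs S D₁).card = ∑ k ∈ S, (S.filter (fun k' => |((dd k k' : ℤ) : ℝ)| ≤ D₁)).card := by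
  unfold prs
  rw [Finset.card_filter, Finset.sum_product]
  refine Finset.sum_congr rfl fun k _ => ?_
  rw [Finset.card_filter]

/-- sums over the contents -/
theorem sum_gcd65 {N : ℕ} {W D τ : ℝ} {S : Finset (ℤ × ℤ)} (hN : 1 ≤ N) (hW : 0 ≤ W) (hD : 1 ≤ D) (hS : S ⊆ cn N) (ht : ∀ k ∈ S, |tt 0 k - τ| ≤ W)
    (hd : ∀ k ∈ S, D * (Int.gcd k.1 k.2 : ℝ) ≤ k.1) {a b : ℝ} (ha : 0 ≤ a) (hb : 0 ≤ b) :
    ∑ k ∈ S, (a + b * (Int.gcd k.1 k.2 : ℝ)) ≤ a * (16 * (N ^ 2 * W) + 2 * (N / D)) + b * (16 * (1 + log N) * (N ^ 2 * W) + 8 * (N / D) ^ 2) := by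
  have hN0 : (0 : ℝ) < N := by exact_mod_cast hN
  have hN1 : (1 : ℝ) ≤ N := by exact_mod_cast hN
  have hD0 : 0 < D := by linarith
  obtain ⟨G, hG⟩ : ∃ G : ℕ, G = ⌊2 * (N / D)⌋₊ := ⟨_, rfl⟩
  have hG1 : (G : ℝ) ≤ 2 * (N / D) := by
    rw [hG]
    exact Nat.floor_le (by positivity)
  have hmem : ∀ k ∈ S, Int.gcd k.1 k.2 ∈ Finset.Ico 1 (G + 1) := by
    intro k hk
    obtain ⟨a1, a2, a3⟩ := cn_bd65 (hS hk)
    have hg0 : 0 < Int.gcd k.1 k.2 := Int.gcd_pos_of_ne_zero_left _ a3.ne'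
    rw [Finset.mem_Ico]
    refine ⟨hg0, Nat.lt_succ_iff.2 ?_⟩
    rw [hG]
    refine Nat.le_floor ?_
    have h1 := hd k hk
    have h2 : (k.1 : ℝ) ≤ 2 * N := by exact_mod_cast a2.le
    rw [← mul_div_assoc, le_div_iff₀ hD0]
    linarith
  rw [← Finset.sum_fiberwise_of_maps_to hmem]
  have h1 : ∀ g ∈ Finset.Ico 1 (G + 1), ∑ k ∈ S with Int.gcd k.1 k.2 = g, (a + b * (Int.gcd k.1 k.2 : ℝ)) ≤
      (8 * (N ^ 2 * W) * (1 / (g : ℝ) ^ 2) + 1) * (a + b * g) := by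
    intro g hg
    have hg1 : 1 ≤ g := (Finset.mem_Ico.1 hg).1
    have e1 : ∑ k ∈ S with Int.gcd k.1 k.2 = g, (a + b * (Int.gcd k.1 k.2 : ℝ)) =
        ∑ k ∈ S with Int.gcd k.1 k.2 = g, (a + b * (g : ℝ)) :=
      Finset.sum_congr rfl fun k hk => by rw [(Finset.mem_filter.1 hk).2]
    rw [e1, Finset.sum_const, nsmul_eq_mul]
    exact mul_le_mul_of_nonneg_right (card_g65 hN hW hS ht hg1) (by positivity)
  refine (Finset.sum_le_sum h1).trans ?_
  rw [Finset.sum_Ico_eq_sum_range, Nat.add_sub_cancel]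
  obtain ⟨V, hV⟩ : ∃ V, V = (N : ℝ) ^ 2 * W := ⟨_, rfl⟩
  have hV0 : 0 ≤ V := by rw [hV]; positivity
  rw [← hV]
  have e2 : ∀ i ∈ Finset.range G, (8 * V * (1 / ((1 + i : ℕ) : ℝ) ^ 2) + 1) * (a + b * ((1 + i : ℕ) : ℝ)) =
      8 * V * a * (1 / ((1 + i : ℕ) : ℝ) ^ 2) + 8 * V * b * (1 / ((1 + i : ℕ) : ℝ)) + a + b * ((1 + i : ℕ) : ℝ) := by
    intro i _
    have : ((1 + i : ℕ) : ℝ) ≠ 0 := by positivity
    field_simp
    ring
  rw [Finset.sum_congr rfl e2, Finset.sum_add_distrib, Finset.sum_add_distrib, Finset.sum_add_distrib, ← Finset.mul_sum, ← Finset.mul_sum,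
    ← Finset.mul_sum, Finset.sum_const, Finset.card_range, nsmul_eq_mul]
  have s1 := mul_le_mul_of_nonneg_left (sum_inv_sq65 G) (by positivity : 0 ≤ 8 * V * a)
  have s2 := mul_le_mul_of_nonneg_left (sum_inv65 G) (by positivity : 0 ≤ 8 * V * b)
  have s3 : ∑ i ∈ Finset.range G, ((1 + i : ℕ) : ℝ) ≤ 2 * (G : ℝ) ^ 2 := by
    have : ∑ i ∈ Finset.range G, ((1 + i : ℕ) : ℝ) ≤ ∑ _i ∈ Finset.range G, (G : ℝ) := by
      refine Finset.sum_le_sum fun i hi => ?_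
      have h3 := Finset.mem_range.1 hi
      have h4 : 1 + i ≤ G := by omega
      exact_mod_cast h4
    rw [Finset.sum_const, Finset.card_range, nsmul_eq_mul] at this
    nlinarith [sq_nonneg (G : ℝ)]
  have s3' := mul_le_mul_of_nonneg_left s3 hb
  have s4 : log G ≤ 1 + log N := by
    rcases Nat.eq_zero_or_pos G with h0 | h0
    · rw [h0, Nat.cast_zero, log_zero]
      have := Real.log_nonneg hN1
      linarith
    · have hGr : (0 : ℝ) < G := by exact_mod_cast h0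
      have h5 : (G : ℝ) ≤ 2 * N := by
        refine hG1.trans (mul_le_mul_of_nonneg_left ?_ (by norm_num))
        exact div_le_self hN0.le hD
      have h6 := Real.log_le_log hGr h5
      rw [Real.log_mul (by norm_num) hN0.ne'] at h6
      have h7 : log 2 ≤ 1 := by
        have := Real.log_two_lt_d9
        linarith
      linarith
  have s5 : (G : ℝ) ^ 2 ≤ (2 * (N / D)) ^ 2 := pow_le_pow_left₀ (Nat.cast_nonneg _) hG1 2
  have s6 : (G : ℝ) * a ≤ a * (2 * (N / D)) := by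
    have := mul_le_mul_of_nonneg_left hG1 ha
    linarith
  have s7 : b * (2 * (G : ℝ) ^ 2) ≤ b * (8 * (N / D) ^ 2) := by
    refine mul_le_mul_of_nonneg_left ?_ hb
    nlinarith
  have s8 : 8 * V * b * (1 + log G) ≤ 8 * V * b * (2 * (1 + log N)) := by
    refine mul_le_mul_of_nonneg_left ?_ (by positivity)
    have := Real.log_nonneg hN1
    linarith
  have e3 : a * (16 * V + 2 * (N / D)) + b * (16 * (1 + log N) * V + 8 * (N / D) ^ 2) =
      8 * V * a * 2 + 8 * V * b * (2 * (1 + log N)) + a * (2 * (N / D)) + b * (8 * (N / D) ^ 2) := by ring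
  rw [e3]
  linarith

theorem count_sec : ∃ C : ℝ, 1 ≤ C ∧ ∀ (N : ℕ) (W D τ : ℝ) (S : Finset (ℤ × ℤ)), 1 ≤ N → 0 ≤ W → 1 ≤ D → S ⊆ cn N → (∀ k ∈ S, |tt 0 k - τ| ≤ W) →
    (∀ k ∈ S, D * (Int.gcd k.1 k.2 : ℝ) ≤ k.1) →
      (S.card : ℝ) ≤ C * (1 + log N) * (N ^ 2 * W + N / D) ∧ ∀ D₁ : ℝ, 1 ≤ D₁ →
        ((prs S D₁).card : ℝ) ≤ C * (1 + log N) * D₁ * (N ^ 2 * W + (N / D) ^ 2 + N / D) := by
  classical
  refine ⟨96, by norm_num, fun N W D τ S hN hW hD hS ht hd => ?_⟩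
  have hN1 : (1 : ℝ) ≤ N := by exact_mod_cast hN
  have hlog := Real.log_nonneg hN1
  obtain ⟨V, hV⟩ : ∃ V, V = (N : ℝ) ^ 2 * W := ⟨_, rfl⟩
  obtain ⟨Z, hZ⟩ : ∃ Z, Z = (N : ℝ) / D := ⟨_, rfl⟩
  obtain ⟨L, hL⟩ : ∃ L, L = 1 + log N := ⟨_, rfl⟩
  have hL1 : 1 ≤ L := by rw [hL]; linarith
  have hV0 : 0 ≤ V := by rw [hV]; positivity
  have hZ0 : 0 ≤ Z := by rw [hZ]; positivity
  have key : ∀ a b : ℝ, 0 ≤ a → 0 ≤ b → ∑ k ∈ S, (a + b * (Int.gcd k.1 k.2 : ℝ)) ≤ a * (16 * V + 2 * Z) + b * (16 * L * V + 8 * Z ^ 2) := by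
    intro a b ha hb
    rw [hV, hZ, hL]
    exact sum_gcd65 hN hW hD hS ht hd ha hb
  rw [← hV, ← hZ, ← hL]
  constructor
  · have h1 := key 1 0 zero_le_one le_rfl
    simp only [zero_mul, add_zero, Finset.sum_const, nsmul_eq_mul, mul_one, one_mul] at h1
    have h2 : 0 ≤ V + Z := by positivity
    have h3 : 1 * (V + Z) ≤ L * (V + Z) := mul_le_mul_of_nonneg_right hL1 h2
    have h4 : 96 * L * (V + Z) = 96 * (L * (V + Z)) := by ring
    rw [h4]
    linarith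
  · intro D₁ hD₁
    rw [prs_card65]
    push_cast
    have h1 : ∑ k ∈ S, ((S.filter (fun k' => |((dd k k' : ℤ) : ℝ)| ≤ D₁)).card : ℝ) ≤ ∑ k ∈ S, (4 * D₁ + 2 * (Int.gcd k.1 k.2 : ℝ)) :=
      Finset.sum_le_sum fun k hk => card_det65 hN hS hk hD₁ _ fun k' hk' => Finset.mem_filter.1 hk'
    refine h1.trans ((key (4 * D₁) 2 (by positivity) (by norm_num)).trans ?_)
    have hLD : 1 ≤ L * D₁ := one_le_mul_of_one_le_of_one_le hL1 hD₁
    have g1 : D₁ * V ≤ L * D₁ * V := by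
      have : D₁ ≤ L * D₁ := le_mul_of_one_le_left (by linarith) hL1
      exact mul_le_mul_of_nonneg_right this hV0
    have g2 : D₁ * Z ≤ L * D₁ * Z := by
      have : D₁ ≤ L * D₁ := le_mul_of_one_le_left (by linarith) hL1
      exact mul_le_mul_of_nonneg_right this hZ0
    have g3 : L * V ≤ L * D₁ * V := by
      have : L ≤ L * D₁ := le_mul_of_one_le_right (by linarith) hD₁
      exact mul_le_mul_of_nonneg_right this hV0
    have g4 : 1 * Z ^ 2 ≤ L * D₁ * Z ^ 2 := mul_le_mul_of_nonneg_right hLD (by positivity)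
    have e1 : 96 * L * D₁ * (V + Z ^ 2 + Z) = 96 * (L * D₁ * V) + 96 * (L * D₁ * Z ^ 2) + 96 * (L * D₁ * Z) := by ring
    rw [e1]
    have e2 : 4 * D₁ * (16 * V + 2 * Z) + 2 * (16 * L * V + 8 * Z ^ 2) = 64 * (D₁ * V) + 8 * (D₁ * Z) + 32 * (L * V) + 16 * Z ^ 2 := by ring
    rw [e2]
    have p1 : 0 ≤ L * D₁ * Z := by positivity
    have p2 : 0 ≤ L * D₁ * Z ^ 2 := by positivity
    linarith

end Pool.Agent.Helper60.RT
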