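import Pool.Agent.Helper6.HM.Polar

/-!
# RT project: finite form of the main inequality with coupled (also multiple) zeros on the line

Copy of `Helper6/HM/Block.lean` and `Helper6/HM/Frame.lean` (helper6) with a set `Cp` of coupled indices on the line,
of any multiplicity.
-/

set_option autoImplicit false

open Matrix Finset
open scoped ComplexOrder ComplexConjugate

namespace Pool.Agent.Helper65.RT

open Pool.Agent.Helper6.HM (trace_lower)

variable {ι : Type*} [Fintype ι] [DecidableEq ι]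

/-- a diagonally dominant Hermitian matrix is positive semidefinite -/
lemma diagdom_psd {C : Matrix ι ι ℂ} (hC : C.IsHermitian) (h : ∀ i, ∑ j ∈ univ.erase i, ‖C i j‖ ≤ (C i i).re) :
    C.PosSemidef := by
  refine PosSemidef.of_dotProduct_mulVec_nonneg hC ?_
  intro x
  have hre : (star x ⬝ᵥ (C *ᵥ x)).im = 0 := by
    have := hC.im_star_dotProduct_mulVec_self x
    simpa using this
  rw [Complex.le_def]
  refine ⟨?_, by rw [hre, Complex.zero_im]⟩
  rw [Complex.zero_re]
  have e1 : (star x ⬝ᵥ (C *ᵥ x)).re = ∑ i, ∑ j, (conj (x i) * (C i j * x j)).re := by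
    simp only [dotProduct, mulVec, Pi.star_apply, RCLike.star_def, mul_sum, Complex.re_sum]
  rw [e1]
  have hsym : ∀ i j, ‖C j i‖ = ‖C i j‖ := by
    intro i j
    rw [← hC.apply i j, RCLike.star_def, RCLike.norm_conj]
  -- lower bound of each row
  have h1 : ∀ i, ∑ j ∈ univ.erase i, ‖C i j‖ * (‖x i‖ ^ 2 / 2 - ‖x j‖ ^ 2 / 2) ≤ ∑ j, (conj (x i) * (C i j * x j)).re := by
    intro i
    rw [← Finset.add_sum_erase univ _ (mem_univ i)]
    have h2 : (conj (x i) * (C i i * x i)).re = (C i i).re * ‖x i‖ ^ 2 := by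
      have h3 : conj (x i) * (C i i * x i) = C i i * ((‖x i‖ ^ 2 : ℝ) : ℂ) := by
        rw [Complex.ofReal_pow, ← Complex.conj_mul']
        ring
      rw [h3, Complex.re_mul_ofReal]
    rw [h2]
    have h4 : ∑ j ∈ univ.erase i, ‖C i j‖ * ‖x i‖ ^ 2 ≤ (C i i).re * ‖x i‖ ^ 2 := by
      rw [← sum_mul]
      exact mul_le_mul_of_nonneg_right (h i) (by positivity)
    have h5 : ∑ j ∈ univ.erase i, ‖C i j‖ * (‖x i‖ ^ 2 / 2 - ‖x j‖ ^ 2 / 2) ≤ ∑ j ∈ univ.erase i, ‖C i j‖ * ‖x i‖ ^ 2 +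
        ∑ j ∈ univ.erase i, (conj (x i) * (C i j * x j)).re := by
      rw [← sum_add_distrib]
      refine sum_le_sum fun j _ => ?_
      have h6 := (abs_le.1 (Complex.abs_re_le_norm (conj (x i) * (C i j * x j)))).1
      rw [norm_mul, norm_mul, RCLike.norm_conj] at h6
      have h7 : 0 ≤ ‖C i j‖ * (‖x i‖ - ‖x j‖) ^ 2 := by positivity
      nlinarith
    linarith
  refine le_trans ?_ (sum_le_sum fun i _ => h1 i)
  have h8 : ∑ i, ∑ j ∈ univ.erase i, ‖C i j‖ * (‖x i‖ ^ 2 / 2 - ‖x j‖ ^ 2 / 2) =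
      ∑ i, ∑ j, ‖C i j‖ * (‖x i‖ ^ 2 / 2 - ‖x j‖ ^ 2 / 2) := by
    refine sum_congr rfl fun i _ => ?_
    rw [← Finset.add_sum_erase univ (fun j => ‖C i j‖ * (‖x i‖ ^ 2 / 2 - ‖x j‖ ^ 2 / 2)) (mem_univ i)]
    simp
  rw [h8]
  have h9 : ∑ i, ∑ j, ‖C i j‖ * (‖x i‖ ^ 2 / 2 - ‖x j‖ ^ 2 / 2) = - ∑ i, ∑ j, ‖C i j‖ * (‖x i‖ ^ 2 / 2 - ‖x j‖ ^ 2 / 2) := by
    conv_lhs => rw [sum_comm]
    rw [← sum_neg_distrib]
    refine sum_congr rfl fun i _ => ?_
    rw [← sum_neg_distrib]
    refine sum_congr rfl fun j _ => ?_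
    rw [hsym]
    ring
  linarith

/-- the data of the zeros -/
structure Data (ι : Type*) [Fintype ι] [DecidableEq ι] where
  E : Matrix ι ι ℂ
  hE : E.PosSemidef
  st : ι → ι
  hst : ∀ i, st (st i) = i
  hE1 : ∀ i, E i (st i) = 1
  m : ι → ℕ
  hm : ∀ i, 1 ≤ m i
  hms : ∀ i, m (st i) = m i
  /-- the coupled indices -/
  Cp : ι → Prop
  hCp : ∀ i, Cp i → st i = i

namespace Data

variable (D : Data ι)

noncomputable def α (i : ι) : ℝ := if D.st i = i then Real.sqrt (D.m i) else Real.sqrt (D.m i) / 2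
noncomputable def β (i : ι) : ℝ := if D.st i = i then 0 else Real.sqrt (D.m i) / 2
open Classical in
noncomputable def dd (i : ι) : ℝ := if D.st i = i ∧ ¬ D.Cp i then 2 else 1

/-- the test matrix -/
noncomputable def T (c : ι → ι → ℂ) : Matrix ι ι ℂ :=
  Matrix.of fun i j => (if j = i then (D.dd i : ℂ) else 0) + (if j = D.st i ∧ D.st i ≠ i then 1 else 0) + c i j

/-- admissible off-diagonal part of the test matrix -/
structure Adm (c : ι → ι → ℂ) : Prop where
  herm : ∀ i j, c j i = conj (c i j)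
  supp : ∀ i j, c i j ≠ 0 → i ≠ j ∧ D.Cp i
  row : ∀ i, ∑ j, ‖c i j‖ ≤ 1

variable {D} {c : ι → ι → ℂ}

lemma T_apply (i j : ι) : D.T c i j =
    (if j = i then (D.dd i : ℂ) else 0) + (if j = D.st i ∧ D.st i ≠ i then 1 else 0) + c i j := rfl

lemma Adm.diag (h : D.Adm c) (i : ι) : c i i = 0 := by
  by_contra h0
  exact (h.supp i i h0).1 rfl

lemma Adm.not_sim (h : D.Adm c) {i : ι} (hi : ¬ D.Cp i) (j : ι) : c i j = 0 := by
  by_contra h0
  exact hi (h.supp i j h0).2

lemma Adm.sim_right (h : D.Adm c) {i j : ι} (h0 : c i j ≠ 0) : D.Cp j := by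
  refine (h.supp j i ?_).2
  rw [h.herm]
  exact (map_ne_zero _).2 h0

lemma st_ne {i : ι} (h : D.st i ≠ i) : D.st (D.st i) ≠ D.st i := by
  rw [D.hst]
  exact fun e => h e.symm

lemma T_herm (h : D.Adm c) : (D.T c).IsHermitian := by
  ext i j
  rw [conjTranspose_apply, T_apply, T_apply, star_add, star_add]
  congr 1
  · congr 1
    · by_cases hij : i = j
      · subst hij; simp
      · simp [hij, Ne.symm hij]
    · by_cases h1 : i = D.st j ∧ D.st j ≠ j
      · obtain ⟨h1, h2⟩ := h1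
        have h3 : D.st i = j := by rw [h1, D.hst]
        rw [if_pos ⟨h1, h2⟩, if_pos ⟨h3.symm, by rw [h3, h1]; exact fun e => h2 e.symm⟩]
        simp
      · have h5 : ¬ (j = D.st i ∧ D.st i ≠ i) := by
          rintro ⟨h1', h2'⟩
          have h3 : D.st j = i := by rw [h1', D.hst]
          exact h1 ⟨h3.symm, by rw [h3, h1']; exact fun e => h2' e.symm⟩
        rw [if_neg h1, if_neg h5]
        simp
  · rw [h.herm i j]
    simp

/-- off-diagonal row sums -/
lemma T_row (_h : D.Adm c) (i : ι) : ∑ j ∈ univ.erase i, ‖D.T c i j‖ ≤ (if D.st i ≠ i then 1 else 0) + ∑ j, ‖c i j‖ := by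
  have h1 : ∀ j ∈ univ.erase i, ‖D.T c i j‖ ≤ (if j = D.st i then (if D.st i ≠ i then (1:ℝ) else 0) else 0) + ‖c i j‖ := by
    intro j hj
    rw [T_apply, if_neg (Finset.ne_of_mem_erase hj), zero_add]
    refine (norm_add_le _ _).trans ?_
    gcongr
    by_cases h2 : j = D.st i
    · by_cases h3 : D.st i ≠ i
      · simp [h2, h3]
      · simp [h3]
    · simp [h2]
  refine (sum_le_sum h1).trans ?_
  rw [sum_add_distrib]
  refine add_le_add ?_ ?_
  · have h4 : ∑ j ∈ univ.erase i, (if j = D.st i then (if D.st i ≠ i then (1:ℝ) else 0) else 0) ≤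
        ∑ j, (if j = D.st i then (if D.st i ≠ i then (1:ℝ) else 0) else 0) := by
      refine sum_le_sum_of_subset_of_nonneg (erase_subset _ _) fun j _ _ => ?_
      split_ifs <;> norm_num
    refine h4.trans (le_of_eq ?_)
    rw [Finset.sum_ite_eq' univ (D.st i)]
    simp
  · exact sum_le_sum_of_subset_of_nonneg (erase_subset _ _) fun j _ _ => norm_nonneg _

lemma row_le (h : D.Adm c) (i : ι) : (if D.st i ≠ i then (1:ℝ) else 0) + ∑ j, ‖c i j‖ ≤ D.dd i ∧
    (if D.st i ≠ i then (1:ℝ) else 0) + ∑ j, ‖c i j‖ ≤ 2 - D.dd i := by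
  unfold dd
  by_cases h1 : D.st i = i
  · rw [if_neg (fun h' => h' h1), zero_add]
    by_cases h2 : D.Cp i
    · rw [if_neg (fun h' => h'.2 h2)]
      have := h.row i
      constructor <;> linarith
    · have h4 : ∑ j, ‖c i j‖ = 0 := sum_eq_zero fun j _ => by rw [h.not_sim h2, norm_zero]
      rw [h4, if_pos ⟨h1, h2⟩]
      norm_num
  · have h3 : ¬ D.Cp i := fun h' => h1 (D.hCp i h')
    have h4 : ∑ j, ‖c i j‖ = 0 := sum_eq_zero fun j _ => by rw [h.not_sim h3, norm_zero]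
    rw [h4, if_pos h1, if_neg (fun h' => h1 h'.1)]
    norm_num

lemma T_diag (h : D.Adm c) (i : ι) : D.T c i i = (D.dd i : ℂ) := by
  rw [T_apply, h.diag, if_pos rfl, if_neg (fun h' => h'.2 h'.1.symm)]
  ring

lemma T_psd (h : D.Adm c) : (D.T c).PosSemidef := by
  refine diagdom_psd (T_herm h) fun i => ?_
  rw [T_diag h, Complex.ofReal_re]
  exact (T_row h i).trans (row_le h i).1

lemma T_two (h : D.Adm c) : ((2:ℂ) • 1 - D.T c).PosSemidef := by
  refine diagdom_psd ?_ fun i => ?_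
  · refine IsHermitian.sub ?_ (T_herm h)
    ext i j
    rw [conjTranspose_apply, Matrix.smul_apply, Matrix.smul_apply, Matrix.one_apply, Matrix.one_apply]
    by_cases hij : i = j
    · subst hij; simp
    · simp [hij, Ne.symm hij]
  · have e1 : ∑ j ∈ univ.erase i, ‖((2:ℂ) • 1 - D.T c) i j‖ = ∑ j ∈ univ.erase i, ‖D.T c i j‖ := by
      refine sum_congr rfl fun j hj => ?_
      rw [Matrix.sub_apply, Matrix.smul_apply, Matrix.one_apply, if_neg (Finset.ne_of_mem_erase hj).symm, smul_zero,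
        zero_sub, norm_neg]
    rw [e1, Matrix.sub_apply, Matrix.smul_apply, Matrix.one_apply_eq, T_diag h]
    have e2 : ((2:ℂ) • (1:ℂ) - (D.dd i : ℂ)).re = 2 - D.dd i := by simp
    rw [e2]
    exact (T_row h i).trans (row_le h i).2

lemma T_sq (h : D.Adm c) : (D.T c * D.T c).trace.re =
    ∑ i, (D.dd i ^ 2 + (if D.st i ≠ i then 1 else 0) + ∑ j, ‖c i j‖ ^ 2) := by
  have hh := T_herm h
  rw [Matrix.trace, Complex.re_sum]
  refine sum_congr rfl fun i _ => ?_
  rw [diag_apply, Matrix.mul_apply, Complex.re_sum]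
  have h1 : ∀ j, (D.T c i j * D.T c j i).re = (if j = i then D.dd i ^ 2 else 0) +
      (if j = D.st i then (if D.st i ≠ i then 1 else 0) else 0) + ‖c i j‖ ^ 2 := by
    intro j
    have h2 : D.T c i j * D.T c j i = ((‖D.T c i j‖ ^ 2 : ℝ) : ℂ) := by
      rw [← hh.apply j i, RCLike.star_def, Complex.mul_conj']
      push_cast
      ring
    rw [h2, Complex.ofReal_re]
    by_cases h3 : j = i
    · subst h3
      rw [T_diag h, h.diag, if_pos rfl, norm_zero, Complex.norm_real, Real.norm_eq_abs, sq_abs]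
      by_cases h4 : j = D.st j
      · rw [if_pos h4, if_neg (fun h' => h' h4.symm)]
        ring
      · rw [if_neg h4]
        ring
    · rw [if_neg h3]
      by_cases h4 : j = D.st i
      · rw [if_pos h4]
        have h5 : D.st i ≠ i := by rw [← h4]; exact h3
        have h6 : ¬ D.Cp i := fun h' => h5 (D.hCp i h')
        rw [if_pos h5, T_apply, if_neg h3, if_pos ⟨h4, h5⟩, h.not_sim h6]
        simp
      · rw [if_neg h4, T_apply, if_neg h3, if_neg (fun h' => h4 h'.1)]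
        simp
  simp only [h1, sum_add_distrib]
  rw [Finset.sum_ite_eq' univ i, Finset.sum_ite_eq' univ (D.st i)]
  simp

end Data


open scoped MatrixOrder Matrix.Norms.L2Operator in
lemma exists_root {E : Matrix ι ι ℂ} (hE : E.PosSemidef) : ∃ Y : Matrix ι ι ℂ, E = Yᴴ * Y :=
  CStarAlgebra.nonneg_iff_eq_star_mul_self.mp hE.nonneg

namespace Data

variable (D : Data ι) {c : ι → ι → ℂ}

noncomputable def V (Y : Matrix ι ι ℂ) : Matrix ι ι ℂ :=
  Matrix.of fun k i => (D.α i : ℂ) * Y k i + (D.β i : ℂ) * Y k (D.st i)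

noncomputable def W (Y : Matrix ι ι ℂ) : Matrix ι ι ℂ :=
  Matrix.of fun k i => (D.β i : ℂ) * (Y k i - Y k (D.st i))

/-- weighted reflection -/
noncomputable def J : Matrix ι ι ℂ := Matrix.of fun i j => if j = D.st i then (D.m i : ℂ) else 0

def P : Equiv.Perm ι := ⟨D.st, D.st, D.hst, D.hst⟩

variable {D}

lemma αβ_st (i : ι) : D.α (D.st i) = D.α i ∧ D.β (D.st i) = D.β i := by
  unfold α β
  rw [D.hms, D.hst]
  by_cases h : D.st i = i
  · rw [if_pos h, if_pos h, if_pos h.symm, if_pos h.symm]; exact ⟨rfl, rfl⟩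
  · rw [if_neg h, if_neg h, if_neg (fun e => h e.symm), if_neg (fun e => h e.symm)]; exact ⟨rfl, rfl⟩

lemma sqrt_m (i : ι) : ((Real.sqrt (D.m i) : ℝ) : ℂ) * (Real.sqrt (D.m i) : ℝ) = (D.m i : ℂ) := by
  rw [← Complex.ofReal_mul, Real.mul_self_sqrt (Nat.cast_nonneg _)]
  simp

lemma VW_entry (Y : Matrix ι ι ℂ) (k l i : ι) :
    D.V Y k i * conj (D.V Y l i) - D.W Y k i * conj (D.W Y l i) =
      (D.m i : ℂ) / 2 * (Y k i * conj (Y l (D.st i)) + Y k (D.st i) * conj (Y l i)) := by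
  unfold V W α β
  rw [← sqrt_m]
  simp only [of_apply, map_add, map_sub, map_mul, Complex.conj_ofReal]
  by_cases h : D.st i = i
  · rw [if_pos h, if_pos h, h]
    push_cast
    ring
  · rw [if_neg h, if_neg h]
    push_cast
    ring

lemma B_eq (Y : Matrix ι ι ℂ) : D.V Y * (D.V Y)ᴴ - D.W Y * (D.W Y)ᴴ = Y * D.J * Yᴴ := by
  ext k l
  have e1 : (D.V Y * (D.V Y)ᴴ - D.W Y * (D.W Y)ᴴ) k l =
      ∑ i, (D.m i : ℂ) / 2 * (Y k i * conj (Y l (D.st i)) + Y k (D.st i) * conj (Y l i)) := by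
    rw [Matrix.sub_apply, Matrix.mul_apply, Matrix.mul_apply, ← sum_sub_distrib]
    refine sum_congr rfl fun i _ => ?_
    rw [conjTranspose_apply, conjTranspose_apply, RCLike.star_def, VW_entry]
  have e2 : (Y * D.J * Yᴴ) k l = ∑ i, (D.m i : ℂ) * (Y k i * conj (Y l (D.st i))) := by
    rw [Matrix.mul_assoc, Matrix.mul_apply]
    refine sum_congr rfl fun i _ => ?_
    rw [Matrix.mul_apply]
    have : ∀ j, D.J i j * Yᴴ j l = if j = D.st i then (D.m i : ℂ) * conj (Y l j) else 0 := by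
      intro j
      rw [conjTranspose_apply, RCLike.star_def]
      unfold J
      rw [of_apply]
      split_ifs <;> simp
    simp only [this]
    rw [Finset.sum_ite_eq' univ (D.st i)]
    simp
    ring
  rw [e1, e2]
  have e3 : ∑ i, (D.m i : ℂ) / 2 * (Y k (D.st i) * conj (Y l i)) = ∑ i, (D.m i : ℂ) / 2 * (Y k i * conj (Y l (D.st i))) := by
    rw [← Equiv.sum_comp D.P]
    refine sum_congr rfl fun i _ => ?_
    show (D.m (D.st i) : ℂ) / 2 * (Y k (D.st (D.st i)) * conj (Y l (D.st i))) = _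
    rw [D.hst, D.hms]
  simp only [mul_add, sum_add_distrib]
  rw [e3, ← sum_add_distrib]
  refine sum_congr rfl fun i _ => ?_
  ring

lemma B_sq {Y : Matrix ι ι ℂ} (hY : D.E = Yᴴ * Y) :
    ((Y * D.J * Yᴴ) * (Y * D.J * Yᴴ)).trace = ∑ i, ∑ j, (D.m i : ℂ) * D.m j * (D.E (D.st i) j * D.E (D.st j) i) := by
  have e1 : ((Y * D.J * Yᴴ) * (Y * D.J * Yᴴ)).trace = ((D.J * D.E) * (D.J * D.E)).trace := by
    calc ((Y * D.J * Yᴴ) * (Y * D.J * Yᴴ)).trace = (Y * (D.J * (Yᴴ * Y) * D.J * Yᴴ)).trace := by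
          simp only [Matrix.mul_assoc]
      _ = (D.J * (Yᴴ * Y) * D.J * Yᴴ * Y).trace := Matrix.trace_mul_comm _ _
      _ = _ := by rw [← hY]; simp only [Matrix.mul_assoc, ← hY]
  rw [e1, Matrix.trace]
  refine sum_congr rfl fun i _ => ?_
  rw [diag_apply, Matrix.mul_apply]
  have e2 : ∀ i j, (D.J * D.E) i j = (D.m i : ℂ) * D.E (D.st i) j := by
    intro i j
    rw [Matrix.mul_apply]
    have : ∀ k, D.J i k * D.E k j = if k = D.st i then (D.m i : ℂ) * D.E k j else 0 := by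
      intro k
      unfold J
      rw [of_apply]
      split_ifs <;> simp
    simp only [this]
    rw [Finset.sum_ite_eq' univ (D.st i)]
    simp
  refine sum_congr rfl fun j _ => ?_
  rw [e2, e2]
  ring

lemma G_apply {Y : Matrix ι ι ℂ} (hY : D.E = Yᴴ * Y) (i j : ι) : ((D.V Y)ᴴ * D.V Y) i j =
    D.α i * D.α j * D.E i j + D.α i * D.β j * D.E i (D.st j) + D.β i * D.α j * D.E (D.st i) j +
      D.β i * D.β j * D.E (D.st i) (D.st j) := by
  rw [hY]
  simp only [Matrix.mul_apply, conjTranspose_apply, RCLike.star_def, mul_sum]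
  rw [← sum_add_distrib, ← sum_add_distrib, ← sum_add_distrib]
  refine sum_congr rfl fun k _ => ?_
  unfold V
  simp only [of_apply, map_add, map_mul, Complex.conj_ofReal]
  ring

lemma WW_trace {Y : Matrix ι ι ℂ} (hY : D.E = Yᴴ * Y) : ((D.W Y)ᴴ * D.W Y).trace.re =
    ∑ i, D.β i ^ 2 * ((D.E i i).re + (D.E (D.st i) (D.st i)).re - 2) := by
  rw [Matrix.trace, Complex.re_sum]
  refine sum_congr rfl fun i _ => ?_
  rw [diag_apply]
  have e1 : ((D.W Y)ᴴ * D.W Y) i i = ((D.β i ^ 2 : ℝ) : ℂ) * (D.E i i - D.E i (D.st i) - D.E (D.st i) i + D.E (D.st i) (D.st i)) := by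
    rw [hY]
    simp only [Matrix.mul_apply, conjTranspose_apply, RCLike.star_def]
    rw [← sum_sub_distrib, ← sum_sub_distrib, ← sum_add_distrib, mul_sum]
    refine sum_congr rfl fun k _ => ?_
    unfold W
    simp only [of_apply, map_mul, map_sub, Complex.conj_ofReal]
    push_cast
    ring
  have h1 : D.E i (D.st i) = 1 := D.hE1 i
  have h2 : D.E (D.st i) i = 1 := by
    have := D.hE1 (D.st i)
    rwa [D.hst] at this
  rw [e1, h1, h2, Complex.re_ofReal_mul]
  simp only [Complex.add_re, Complex.sub_re, Complex.one_re]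
  ring

lemma GT_trace (h : D.Adm c) {Y : Matrix ι ι ℂ} (hY : D.E = Yᴴ * Y) : (((D.V Y)ᴴ * D.V Y) * D.T c).trace.re =
    ∑ i, ((((D.V Y)ᴴ * D.V Y) i i).re * D.dd i + (if D.st i ≠ i then (((D.V Y)ᴴ * D.V Y) (D.st i) i).re else 0)) +
      ∑ i, ∑ j, (Real.sqrt (D.m i) * Real.sqrt (D.m j)) * (D.E j i * c i j).re := by
  set G : Matrix ι ι ℂ := (D.V Y)ᴴ * D.V Y with hG
  rw [Matrix.trace_mul_comm, Matrix.trace, Complex.re_sum, ← sum_add_distrib]
  refine sum_congr rfl fun i _ => ?_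
  rw [diag_apply, Matrix.mul_apply]
  have e1 : ∀ j, D.T c i j * G j i = (if j = i then (D.dd i : ℂ) * G j i else 0) +
      (if j = D.st i then (if D.st i ≠ i then G j i else 0) else 0) +
        ((Real.sqrt (D.m i) * Real.sqrt (D.m j) : ℝ) : ℂ) * (D.E j i * c i j) := by
    intro j
    have e2 : c i j * G j i = ((Real.sqrt (D.m i) * Real.sqrt (D.m j) : ℝ) : ℂ) * (D.E j i * c i j) := by
      by_cases h0 : c i j = 0
      · rw [h0]; ring
      · have h1 := (h.supp i j h0).2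
        have h2 := h.sim_right h0
        have h3 : ∀ k, D.Cp k → D.α k = Real.sqrt (D.m k) ∧ D.β k = 0 := by
          intro k hk
          unfold α β
          rw [if_pos (D.hCp k hk), if_pos (D.hCp k hk)]
          exact ⟨rfl, rfl⟩
        rw [hG, G_apply hY, (h3 i h1).1, (h3 i h1).2, (h3 j h2).1, (h3 j h2).2]
        push_cast
        ring
    rw [T_apply, add_mul, add_mul, e2]
    congr 1
    congr 1
    · split_ifs <;> simp
    · by_cases h4 : j = D.st i
      · by_cases h5 : D.st i ≠ i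
        · rw [if_pos ⟨h4, h5⟩, if_pos h4, if_pos h5]; simp
        · rw [if_neg (fun h' => h5 h'.2), if_pos h4, if_neg h5]; simp
      · rw [if_neg (fun h' => h4 h'.1), if_neg h4]; simp
  simp only [e1, sum_add_distrib]
  rw [Finset.sum_ite_eq' univ i, Finset.sum_ite_eq' univ (D.st i)]
  simp only [mem_univ, if_true, Complex.add_re, Complex.re_sum, Complex.re_ofReal_mul]
  congr 1
  congr 1
  · ring
  · split_ifs <;> simp

end Data

open Classical in
/-- the main inequality, finite form -/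
theorem Data.main (D : Data ι) {c : ι → ι → ℂ} (h : D.Adm c) :
    ∑ i, (if D.st i = i then (if D.Cp i then 2 * (D.m i : ℝ) - 1 else 4 * (D.m i : ℝ) - 4) else 2 * D.m i) +
      ∑ i, ∑ j, (2 * (Real.sqrt (D.m i) * Real.sqrt (D.m j)) * (D.E j i * c i j).re - ‖c i j‖ ^ 2) ≤
    (∑ i, ∑ j, (D.m i : ℂ) * D.m j * (D.E (D.st i) j * D.E (D.st j) i)).re := by
  obtain ⟨Y, hY⟩ := exists_root D.hE
  have h1 := trace_lower (D.V Y) (D.W Y) (Data.T_psd h) (Data.T_two h)
  rw [Data.B_eq, Data.B_sq hY, Data.GT_trace h hY, Data.T_sq h, Data.WW_trace hY] at h1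
  refine le_trans ?_ h1
  have h2 : ∀ i, (if D.st i = i then (if D.Cp i then 2 * (D.m i : ℝ) - 1 else 4 * (D.m i : ℝ) - 4) else 2 * D.m i) ≤
      2 * ((((D.V Y)ᴴ * D.V Y) i i).re * D.dd i + (if D.st i ≠ i then (((D.V Y)ᴴ * D.V Y) (D.st i) i).re else 0)) -
      (D.dd i ^ 2 + (if D.st i ≠ i then 1 else 0)) -
      4 * (D.β i ^ 2 * ((D.E i i).re + (D.E (D.st i) (D.st i)).re - 2)) := by
    intro i
    have hE1 : D.E i (D.st i) = 1 := D.hE1 i
    have hE2 : D.E (D.st i) i = 1 := by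
      have := D.hE1 (D.st i)
      rwa [D.hst] at this
    have hsq : Real.sqrt (D.m i) * Real.sqrt (D.m i) = D.m i := Real.mul_self_sqrt (Nat.cast_nonneg _)
    by_cases h3 : D.st i = i
    · have hα : D.α i = Real.sqrt (D.m i) := by unfold Data.α; rw [if_pos h3]
      have hβ : D.β i = 0 := by unfold Data.β; rw [if_pos h3]
      have hG : (((D.V Y)ᴴ * D.V Y) i i).re = D.m i := by
        rw [Data.G_apply hY, hα, hβ]
        have : D.E i i = 1 := by rw [h3] at hE1; exact hE1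
        rw [this, ← Complex.ofReal_mul, hsq]
        simp
      have hn : ¬ (D.st i ≠ i) := fun h' => h' h3
      rw [hG, hβ, if_neg hn, if_neg hn, if_pos h3]
      by_cases h4 : D.Cp i
      · have hd : D.dd i = 1 := by unfold Data.dd; rw [if_neg (fun h' => h'.2 h4)]
        rw [if_pos h4, hd]
        linarith
      · have hd : D.dd i = 2 := by unfold Data.dd; rw [if_pos ⟨h3, h4⟩]
        rw [if_neg h4, hd]
        linarith
    · have hα : D.α i = Real.sqrt (D.m i) / 2 := by unfold Data.α; rw [if_neg h3]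
      have hβ : D.β i = Real.sqrt (D.m i) / 2 := by unfold Data.β; rw [if_neg h3]
      have hab := Data.αβ_st (D := D) i
      have hd : D.dd i = 1 := by unfold Data.dd; rw [if_neg (fun h' => h3 h'.1)]
      have hc4 : ((Real.sqrt (D.m i) / 2 : ℝ) : ℂ) * ((Real.sqrt (D.m i) / 2 : ℝ) : ℂ) = ((D.m i / 4 : ℝ) : ℂ) := by
        rw [← Complex.ofReal_mul]
        congr 1
        linear_combination hsq / 4
      have hG1 : (((D.V Y)ᴴ * D.V Y) i i).re = D.m i / 4 * ((D.E i i).re + (D.E (D.st i) (D.st i)).re + 2) := by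
        rw [Data.G_apply hY, hα, hβ, hc4, hE1, hE2]
        simp only [Complex.add_re, Complex.re_ofReal_mul, Complex.one_re]
        ring
      have hG2 : (((D.V Y)ᴴ * D.V Y) (D.st i) i).re = D.m i / 4 * ((D.E i i).re + (D.E (D.st i) (D.st i)).re + 2) := by
        rw [Data.G_apply hY, hab.1, hab.2, D.hst, hα, hβ, hc4, hE1, hE2]
        simp only [Complex.add_re, Complex.re_ofReal_mul, Complex.one_re]
        ring
      have hβ2 : D.β i ^ 2 = D.m i / 4 := by
        rw [hβ]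
        linear_combination hsq / 4
      have hm : (1 : ℝ) ≤ D.m i := by exact_mod_cast D.hm i
      rw [hG1, hG2, hβ2, hd, if_neg h3, if_pos h3, if_pos h3]
      linarith
  have h3 := sum_le_sum (s := univ) fun i _ => h2 i
  have h4 : ∑ i, ∑ j, (2 * (Real.sqrt (D.m i) * Real.sqrt (D.m j)) * (D.E j i * c i j).re - ‖c i j‖ ^ 2) =
      2 * ∑ i, ∑ j, (Real.sqrt (D.m i) * Real.sqrt (D.m j)) * (D.E j i * c i j).re - ∑ i, ∑ j, ‖c i j‖ ^ 2 := by
    rw [mul_sum, ← sum_sub_distrib]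
    refine sum_congr rfl fun i _ => ?_
    rw [mul_sum, ← sum_sub_distrib]
    refine sum_congr rfl fun j _ => ?_
    ring
  rw [h4]
  simp only [sum_add_distrib, sum_sub_distrib, ← mul_sum] at h3 ⊢
  linarith

end Pool.Agent.Helper65.RT
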