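import Pool.Agent.Helper65.RT.Loc12a
import Pool.Agent.Helper36.QL.L3
import Pool.Agent.Helper92.DT.R4

/-!
# RT-D2, part 2: `loc12`, the family near a slope and the linear family
-/

open MeasureTheory Real Set Filter Topology

set_option autoImplicit false

namespace Pool.Agent.Helper60.RT

open Pool.Agent.Helper22.AE
open Pool.Agent.Helper92.GC (dt tp Tq uu tt arc dd sqa m6)
open Pool.Agent.Helper92.DT (m12 IsMul12 m12_shift m12_congr m12_nonneg mul12_exp)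
open Pool.Agent.Helper60.LT (Fr Tf xf yf df vf fr)
open Pool.Agent.Helper60.QL (R3 nm pA xA sA TA OM er er_lip ln phase_eq)

private theorem ee_add65 (x y : ℝ) : ee (x + y) = ee x * ee y := by
  unfold ee
  rw [← Complex.exp_add]
  congr 1
  push_cast
  ring

private theorem pow4_lip65 {w τ τ' : ℝ} (h : |τ| ≤ w) (h' : |τ'| ≤ w) :
    |τ ^ 4 - τ' ^ 4| ≤ 4 * w ^ 3 * |τ - τ'| := by
  have hw : 0 ≤ w := (abs_nonneg _).trans h
  have e : τ ^ 4 - τ' ^ 4 = (τ - τ') * (τ ^ 3 + τ ^ 2 * τ' + τ * τ' ^ 2 + τ' ^ 3) := by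
    ring
  have p : ∀ (i j : ℕ), |τ ^ i * τ' ^ j| ≤ w ^ i * w ^ j := by
    intro i j
    rw [abs_mul, abs_pow, abs_pow]
    exact mul_le_mul (pow_le_pow_left₀ (abs_nonneg _) h i) (pow_le_pow_left₀ (abs_nonneg _) h' j)
      (by positivity) (by positivity)
  have q : |τ ^ 3 + τ ^ 2 * τ' + τ * τ' ^ 2 + τ' ^ 3| ≤ 4 * w ^ 3 := by
    have a0 := abs_le.1 (p 3 0)
    have a1 := abs_le.1 (p 2 1)
    have a2 := abs_le.1 (p 1 2)
    have a3 := abs_le.1 (p 0 3)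
    simp only [pow_zero, mul_one, one_mul, pow_one] at a0 a1 a2 a3
    rw [abs_le]
    constructor <;> nlinarith
  rw [e, abs_mul]
  have := mul_le_mul_of_nonneg_left q (abs_nonneg (τ - τ'))
  linarith

theorem loc12 {e : Fr} (he : 0 < df e) {B lam : ℝ} (hB : 1 ≤ B) (hl : 1 ≤ lam) : ∃ C w₀ : ℝ, 1 ≤ C ∧ 0 < w₀ ∧ w₀ ≤ 1 ∧
    ∀ (X H w ρ σ t₀ : ℝ) (A A' : R2) (S : Finset (ℤ × ℤ)), 0 < X → 0 < H → 0 < w → w ≤ w₀ → |t₀| ≤ 3 → 0 < σ → σ ≤ |l1 e t₀ * l2 e t₀| →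
      A ∈ OR e t₀ B X → A' ∈ OR e t₀ B X → |A.1 - A'.1| ≤ ρ → |A.2 - A'.2| ≤ ρ →
      (∀ k ∈ S, 0 < uu 0 k ∧ uu 0 k ≤ lam * H ∧ |tt 0 k - t₀| ≤ w) → ρ * H * w ^ 4 ≤ σ →
      qr e t₀ S A' ≤ C * lf2 t₀ S (fun k => ee (uu 0 k * pA (em e t₀ A) (tt 0 k - t₀))) (A' - A) ∧
      lf2 t₀ S (fun k => ee (uu 0 k * pA (em e t₀ A) (tt 0 k - t₀))) (A' - A) ≤ C * qr e t₀ S A' := by
  obtain ⟨B₁, K, hB₁, hK, hO⟩ := OR_em65 he hB
  obtain ⟨C₀, w₀, hC, h0, h1, hE⟩ := er_lip hB₁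
  obtain ⟨D, hD⟩ : ∃ D, D = (8 + 2 * C₀) * K * lam := ⟨_, rfl⟩
  have hD0 : 0 < D := by rw [hD]; positivity
  refine ⟨1 + exp (3800 * D) ^ 12, w₀, by linarith [pow_pos (exp_pos (3800 * D)) 12], h0, h1, ?_⟩
  intro X H w ρ σ t₀ A A' S hX hH hw hw0 ht₀ hσ hσl hA hA' d1 d2 hS hsm
  obtain ⟨hσK, hO1⟩ := hO X σ t₀ hX ht₀ hσ hσl
  obtain ⟨hOM, hLp⟩ := hO1 A hA
  obtain ⟨hOM', -⟩ := hO1 A' hA'
  have d3 := hLp A' hA' ρ d1 d2
  have hρ : 0 ≤ ρ := (abs_nonneg _).trans d1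
  have hw1 : w ≤ 1 := hw0.trans h1
  have hKσ : 1 ≤ K / σ := by
    rw [le_div_iff₀ hσ]
    linarith
  have hρK : ρ ≤ K / σ * ρ := by
    have := mul_le_mul_of_nonneg_right hKσ hρ
    linarith
  have eX : K / σ * ρ / X * X = K / σ * ρ := by field_simp
  obtain ⟨E1, E2⟩ := hE X (K / σ * ρ / X) (em e t₀ A) (em e t₀ A') hX hOM hOM'
    (by rw [eX]; exact d1.trans hρK) (by rw [eX]; exact d2.trans hρK) (by rw [eX]; exact d3)
  obtain ⟨F, hF⟩ : ∃ F, F = em e t₀ A := ⟨_, rfl⟩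
  obtain ⟨F', hF'⟩ : ∃ F', F' = em e t₀ A' := ⟨_, rfl⟩
  have hF4 : F.2.2 = A4 e t₀ A := by rw [hF]; rfl
  have hF4' : F'.2.2 = A4 e t₀ A' := by rw [hF']; rfl
  rw [← hF, ← hF'] at E1 E2
  rw [← hF4, ← hF4'] at d3
  obtain ⟨L, hL⟩ : ∃ L, L = K / σ * ρ := ⟨_, rfl⟩
  have hL0 : 0 ≤ L := by rw [hL]; positivity
  have G1 : ∀ τ : ℝ, |τ| ≤ w₀ → |er F τ - er F' τ| ≤ C₀ * L * |τ| ^ 5 := by
    intro τ hτ
    have := E1 τ hτ
    rw [mul_assoc C₀, eX, ← hL] at this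
    exact this
  have G2 : ∀ τ τ' w : ℝ, |τ| ≤ w → |τ'| ≤ w → w ≤ w₀ →
      |(er F τ - er F' τ) - (er F τ' - er F' τ')| ≤ C₀ * L * w ^ 4 * |τ - τ'| := by
    intro τ τ' w a b c
    have := E2 τ τ' w a b c
    rw [mul_assoc C₀, eX, ← hL] at this
    exact this
  rw [← hL] at d3
  have hsm' : L * H * w ^ 4 ≤ K := by
    have g1 : L * H * w ^ 4 = K / σ * (ρ * H * w ^ 4) := by rw [hL]; ring
    rw [g1]
    calc K / σ * (ρ * H * w ^ 4) ≤ K / σ * σ := mul_le_mul_of_nonneg_left hsm (by positivity)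
      _ = K := by field_simp
  have hU : 0 < lam * H := by positivity
  have hmem : ∀ t ∈ Icc (t₀ - w) (t₀ + w), |t - t₀| ≤ w := by
    intro t ht
    rw [abs_le]
    constructor <;> linarith [ht.1, ht.2]
  have hS' : ∀ k ∈ S, 0 < uu 0 k ∧ uu 0 k ≤ lam * H ∧ t₀ - w ≤ tt 0 k ∧ tt 0 k ≤ t₀ + w := by
    intro k hk
    obtain ⟨a, b, c⟩ := hS k hk
    have := abs_le.1 c
    exact ⟨a, b, by linarith, by linarith⟩
  -- the difference of the phases without the terms of order at most three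
  obtain ⟨g, hg⟩ : ∃ g : ℝ → ℝ, g = fun τ => (F'.2.2 - F.2.2) * τ ^ 4 + (er F' τ - er F τ) := ⟨_, rfl⟩
  have gb : ∀ τ, |τ| ≤ w → |g τ| * H ≤ (1 + C₀) * K := by
    intro τ hτ
    have a1 : |(F'.2.2 - F.2.2) * τ ^ 4| ≤ L * w ^ 4 := by
      rw [abs_mul, abs_pow, abs_sub_comm]
      exact mul_le_mul d3 (pow_le_pow_left₀ (abs_nonneg _) hτ 4) (by positivity) hL0
    have a2 : |er F' τ - er F τ| ≤ C₀ * L * w ^ 4 := by
      rw [abs_sub_comm]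
      refine (G1 τ (hτ.trans hw0)).trans (mul_le_mul_of_nonneg_left ?_ (by positivity))
      have b1 : |τ| ^ 5 ≤ w ^ 5 := pow_le_pow_left₀ (abs_nonneg _) hτ 5
      have b2 : w ^ 5 ≤ w ^ 4 := pow_le_pow_of_le_one hw.le hw1 (by norm_num)
      exact b1.trans b2
    have a3 : |g τ| ≤ (1 + C₀) * (L * w ^ 4) := by
      rw [hg]
      refine (abs_add_le _ _).trans ((add_le_add a1 a2).trans (le_of_eq ?_))
      ring
    calc |g τ| * H ≤ (1 + C₀) * (L * w ^ 4) * H := mul_le_mul_of_nonneg_right a3 hH.le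
      _ = (1 + C₀) * (L * H * w ^ 4) := by ring
      _ ≤ (1 + C₀) * K := mul_le_mul_of_nonneg_left hsm' (by positivity)
  have gl : ∀ τ τ', |τ| ≤ w → |τ'| ≤ w → |g τ - g τ'| * (2 * w) * H ≤ (8 + 2 * C₀) * K * |τ - τ'| := by
    intro τ τ' hτ hτ'
    have a1 : |(F'.2.2 - F.2.2) * (τ ^ 4 - τ' ^ 4)| ≤ L * (4 * w ^ 3 * |τ - τ'|) := by
      rw [abs_mul, abs_sub_comm]
      exact mul_le_mul d3 (pow4_lip65 hτ hτ') (abs_nonneg _) hL0
    have a2 := G2 τ τ' w hτ hτ' hw0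
    have e1 : g τ - g τ' = (F'.2.2 - F.2.2) * (τ ^ 4 - τ' ^ 4) + -((er F τ - er F' τ) - (er F τ' - er F' τ')) := by
      rw [hg]
      ring
    have a3 : |g τ - g τ'| ≤ L * (4 * w ^ 3 * |τ - τ'|) + C₀ * L * w ^ 4 * |τ - τ'| := by
      rw [e1]
      refine (abs_add_le _ _).trans (add_le_add a1 ?_)
      rw [abs_neg]
      exact a2
    have a4 : L * (4 * w ^ 3 * |τ - τ'|) + C₀ * L * w ^ 4 * |τ - τ'| ≤ (4 + C₀) * (L * w ^ 3) * |τ - τ'| := by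
      have b1 : w ^ 4 ≤ w ^ 3 := pow_le_pow_of_le_one hw.le hw1 (by norm_num)
      have b2 : C₀ * L * w ^ 4 * |τ - τ'| ≤ C₀ * L * w ^ 3 * |τ - τ'| := by gcongr
      linarith
    calc |g τ - g τ'| * (2 * w) * H ≤ (4 + C₀) * (L * w ^ 3) * |τ - τ'| * (2 * w) * H := by
          have := a3.trans a4
          gcongr
      _ = (8 + 2 * C₀) * (L * H * w ^ 4) * |τ - τ'| := by ring
      _ ≤ (8 + 2 * C₀) * K * |τ - τ'| := by gcongr
  have hbd : ∀ s : ℝ, |s| ≤ 1 → ∀ t ∈ Icc (t₀ - w) (t₀ + w), |s * g (t - t₀)| ≤ D / (lam * H) := by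
    intro s hs t ht
    have a1 := gb (t - t₀) (hmem t ht)
    rw [abs_mul, le_div_iff₀ hU, hD]
    have a2 : |s| * |g (t - t₀)| ≤ 1 * |g (t - t₀)| := mul_le_mul_of_nonneg_right hs (abs_nonneg _)
    calc |s| * |g (t - t₀)| * (lam * H) ≤ 1 * |g (t - t₀)| * (lam * H) := mul_le_mul_of_nonneg_right a2 hU.le
      _ = |g (t - t₀)| * H * lam := by ring
      _ ≤ (1 + C₀) * K * lam := mul_le_mul_of_nonneg_right a1 (by linarith)
      _ ≤ (8 + 2 * C₀) * K * lam := by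
        have : 0 ≤ K * lam := by positivity
        nlinarith
  have hlp : ∀ s : ℝ, |s| ≤ 1 → ∀ x ∈ Icc (t₀ - w) (t₀ + w), ∀ y ∈ Icc (t₀ - w) (t₀ + w),
      |s * g (x - t₀) - s * g (y - t₀)| * (t₀ + w - (t₀ - w)) ≤ D / (lam * H) * |x - y| := by
    intro s hs x hx y hy
    have a1 := gl (x - t₀) (y - t₀) (hmem x hx) (hmem y hy)
    rw [show x - t₀ - (y - t₀) = x - y by ring] at a1
    rw [← mul_sub, abs_mul, show t₀ + w - (t₀ - w) = 2 * w by ring, div_mul_eq_mul_div, le_div_iff₀ hU, hD]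
    have a2 : |s| * |g (x - t₀) - g (y - t₀)| ≤ 1 * |g (x - t₀) - g (y - t₀)| :=
      mul_le_mul_of_nonneg_right hs (abs_nonneg _)
    calc |s| * |g (x - t₀) - g (y - t₀)| * (2 * w) * (lam * H) ≤ 1 * |g (x - t₀) - g (y - t₀)| * (2 * w) * (lam * H) := by gcongr
      _ = |g (x - t₀) - g (y - t₀)| * (2 * w) * H * lam := by ring
      _ ≤ (8 + 2 * C₀) * K * |x - y| * lam := mul_le_mul_of_nonneg_right a1 (by linarith)
      _ = (8 + 2 * C₀) * K * lam * |x - y| := by ring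
  have hm1 := mul12_exp (S := S) (β := 0) (U := lam * H) (t₁ := t₀ - w) (t₂ := t₀ + w)
    (B := D) hU (by linarith) hS' (χ := fun t => 1 * g (t - t₀)) (hbd 1 (by norm_num)) (hlp 1 (by norm_num))
  have hm2 := mul12_exp (S := S) (β := 0) (U := lam * H) (t₁ := t₀ - w) (t₂ := t₀ + w)
    (B := D) hU (by linarith) hS' (χ := fun t => -1 * g (t - t₀)) (hbd (-1) (by norm_num)) (hlp (-1) (by norm_num))
  obtain ⟨c, hc⟩ : ∃ c : ℝ × ℝ, c = (TA F' - TA F - t₀ * (TA F' * xA F' - TA F * xA F),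
    TA F' * xA F' - TA F * xA F) := ⟨_, rfl⟩
  have hln : ∀ k, ln t₀ (F' - F) k = ln2 t₀ (A' - A) k + uu 0 k * ((F'.2.2 - F.2.2) * (tt 0 k - t₀) ^ 4) := by
    intro k
    have r1 : (F' - F).1 = A'.1 - A.1 := by rw [hF, hF']; rfl
    have r2 : (F' - F).2.1 = A'.2 - A.2 := by rw [hF, hF']; rfl
    have r3 : (F' - F).2.2 = F'.2.2 - F.2.2 := rfl
    have r4 : (A' - A).1 = A'.1 - A.1 := rfl
    have r5 : (A' - A).2 = A'.2 - A.2 := rfl
    unfold ln ln2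
    rw [r1, r2, r3, r4, r5]
    ring
  have hph : ∀ k ∈ S, uu 0 k * pA F' (tt 0 k - t₀) = dt k c +
      (uu 0 k * pA F (tt 0 k - t₀) + ln2 t₀ (A' - A) k) + uu 0 k * (1 * g (tt 0 k - t₀)) := by
    intro k hk
    rw [phase_eq (A := F) (A' := F') (hS k hk).1, ← hc, one_mul, hln k, hg]
    ring
  have hph2 : ∀ k ∈ S, uu 0 k * pA F (tt 0 k - t₀) + ln2 t₀ (A' - A) k = dt k (-c) +
      uu 0 k * pA F' (tt 0 k - t₀) + uu 0 k * (-1 * g (tt 0 k - t₀)) := by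
    intro k hk
    rw [hph k hk]
    have : dt k (-c) = -dt k c := by
      unfold dt
      rw [Prod.fst_neg, Prod.snd_neg]
      ring
    rw [this]
    ring
  have nn : ∀ a : ℤ × ℤ → ℂ, 0 ≤ m12 S a := fun a => m12_nonneg S a
  constructor
  · have e1 : qr e t₀ S A' = m12 S (fun k => ee (uu 0 k * (1 * g (tt 0 k - t₀))) *
        (ee (uu 0 k * pA F (tt 0 k - t₀)) * ee (ln2 t₀ (A' - A) k))) := by
      rw [← m12_shift S _ c]
      unfold qr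
      rw [← hF']
      refine m12_congr fun k hk => ?_
      rw [hph k hk, ee_add65, ee_add65, ee_add65]
      ring
    rw [e1]
    refine (hm1.2 _).trans ?_
    unfold lf2
    rw [← hF]
    have := nn (fun k => ee (uu 0 k * pA F (tt 0 k - t₀)) * ee (ln2 t₀ (A' - A) k))
    linarith
  · have e1 : lf2 t₀ S (fun k => ee (uu 0 k * pA (em e t₀ A) (tt 0 k - t₀))) (A' - A) =
        m12 S (fun k => ee (uu 0 k * (-1 * g (tt 0 k - t₀))) * (ee (uu 0 k * pA F' (tt 0 k - t₀)))) := by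
      rw [← m12_shift S _ (-c)]
      unfold lf2
      rw [← hF]
      refine m12_congr fun k hk => ?_
      rw [← ee_add65, hph2 k hk, ee_add65, ee_add65]
      ring
    rw [e1]
    refine (hm2.2 _).trans ?_
    unfold qr
    rw [← hF']
    have := nn (fun k => ee (uu 0 k * pA F' (tt 0 k - t₀)))
    linarith

end Pool.Agent.Helper60.RT
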