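import Pool.Agent.Helper66.RT.Half

/-!
# RT project: numerical values of the isolation function

`C = CMT` lies in `[1.3274, 239/180]`, and `1 - (C - 1)/Γ(β)²` is at least `2/3`, `53/100`, `6/25` for `β = 1/20, 1/3, 1/2`.
-/

set_option autoImplicit false

namespace Pool.Agent.Helper65.RT

open Pool.Agent.Helper66.RT

/-- bounds for `a cos a` in terms of `sin a` at `a = 1/√2` -/
lemma num_cos_sin {a : ℝ} (h0 : 0 < a) (h1 : a ^ 2 = 1 / 2) :
    8274 / 10000 * Real.sin a ≤ a * Real.cos a ∧ a * Real.cos a ≤ 149 / 180 * Real.sin a := by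
  have hn : ‖(a : ℂ) * Complex.I‖ = a := by
    rw [norm_mul, Complex.norm_I, mul_one, Complex.norm_real, Real.norm_of_nonneg h0.le]
  have ha1 : a ≤ 1 := by nlinarith
  have hb := Complex.exp_bound' (x := (a : ℂ) * Complex.I) (n := 8) (by
    rw [hn]; norm_num; linarith)
  rw [hn] at hb
  have h4 : a ^ 4 = 1 / 4 := by
    calc a ^ 4 = (a ^ 2) ^ 2 := by ring
      _ = _ := by rw [h1]; norm_num
  have h6 : a ^ 6 = 1 / 8 := by
    calc a ^ 6 = (a ^ 2) ^ 3 := by ring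
      _ = _ := by rw [h1]; norm_num
  have h8 : a ^ 8 = 1 / 16 := by
    calc a ^ 8 = (a ^ 2) ^ 4 := by ring
      _ = _ := by rw [h1]; norm_num
  have hexp : Complex.exp ((a : ℂ) * Complex.I) = (Real.cos a : ℂ) + (Real.sin a : ℂ) * Complex.I := by
    rw [Complex.exp_mul_I, ← Complex.ofReal_cos, ← Complex.ofReal_sin]
  have hI2 : Complex.I ^ 2 = -1 := Complex.I_sq
  have hsum : ∑ m ∈ Finset.range 8, ((a : ℂ) * Complex.I) ^ m / (m.factorial : ℂ) =
      ((1 - a ^ 2 / 2 + a ^ 4 / 24 - a ^ 6 / 720 : ℝ) : ℂ) +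
      ((a * (1 - a ^ 2 / 6 + a ^ 4 / 120 - a ^ 6 / 5040) : ℝ) : ℂ) * Complex.I := by
    have i3 : Complex.I ^ 3 = -Complex.I := by rw [pow_succ, hI2]; ring
    have i4 : Complex.I ^ 4 = 1 := by rw [pow_succ, i3]; simp
    have i5 : Complex.I ^ 5 = Complex.I := by rw [pow_succ, i4]; ring
    have i6 : Complex.I ^ 6 = -1 := by rw [pow_succ, i5]; simp
    have i7 : Complex.I ^ 7 = -Complex.I := by rw [pow_succ, i6]; ring
    simp only [Finset.sum_range_succ, Finset.sum_range_zero, mul_pow, i3, i4, i5, i6, i7, hI2, Nat.factorial]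
    push_cast
    ring
  rw [hexp, hsum] at hb
  have hre := (Complex.abs_re_le_norm _).trans hb
  have him := (Complex.abs_im_le_norm _).trans hb
  have e1 : ((Real.cos a : ℂ) + (Real.sin a : ℂ) * Complex.I -
      (((1 - a ^ 2 / 2 + a ^ 4 / 24 - a ^ 6 / 720 : ℝ) : ℂ) +
      ((a * (1 - a ^ 2 / 6 + a ^ 4 / 120 - a ^ 6 / 5040) : ℝ) : ℂ) * Complex.I)).re =
      Real.cos a - (1 - a ^ 2 / 2 + a ^ 4 / 24 - a ^ 6 / 720) := by
    simp only [Complex.sub_re, Complex.add_re, Complex.re_ofReal_mul, Complex.I_re, Complex.ofReal_re]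
    ring
  have e2 : ((Real.cos a : ℂ) + (Real.sin a : ℂ) * Complex.I -
      (((1 - a ^ 2 / 2 + a ^ 4 / 24 - a ^ 6 / 720 : ℝ) : ℂ) +
      ((a * (1 - a ^ 2 / 6 + a ^ 4 / 120 - a ^ 6 / 5040) : ℝ) : ℂ) * Complex.I)).im =
      Real.sin a - a * (1 - a ^ 2 / 6 + a ^ 4 / 120 - a ^ 6 / 5040) := by
    simp only [Complex.sub_im, Complex.add_im, Complex.im_ofReal_mul, Complex.I_im, Complex.ofReal_im]
    ring
  rw [e1, h1, h4, h6, h8] at hre
  rw [e2, h1, h4, h6, h8] at him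
  have hfac : ((8 : ℕ).factorial : ℝ) = 40320 := by norm_num [Nat.factorial]
  rw [hfac] at hre him
  have h10 : (7 : ℝ) / 10 ≤ a := by nlinarith
  constructor
  · have h7 := (abs_le.1 hre).1
    have h9 := (abs_le.1 him).2
    nlinarith
  · have h7 := (abs_le.1 hre).2
    have h9 := (abs_le.1 him).1
    nlinarith

lemma CMT_lo : 13274 / 10000 ≤ CMT := by
  obtain ⟨h1, h2⟩ := num_cos_sin aa_pos aa_sq
  unfold CMT
  have h3 : 8274 / 10000 ≤ aa * Real.cos aa / Real.sin aa := by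
    rw [le_div_iff₀ sin_aa_pos]
    exact h1
  linarith

lemma CMT_hi : CMT ≤ 239 / 180 := by
  obtain ⟨h1, h2⟩ := num_cos_sin aa_pos aa_sq
  unfold CMT
  have h3 : aa * Real.cos aa / Real.sin aa ≤ 149 / 180 := by
    rw [div_le_iff₀ sin_aa_pos]
    exact h2
  linarith

lemma of_sq {c g : ℝ} (hg : 0 < g) {k : ℝ} (h : CMT - 1 ≤ (1 - k) * g ^ 2) (hc : c = 1 - (CMT - 1) / g ^ 2) : k ≤ c := by
  rw [hc]
  have h1 : (CMT - 1) / g ^ 2 ≤ 1 - k := by
    rw [div_le_iff₀ (by positivity)]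
    exact h
  linarith

lemma val_20 : 2 / 3 ≤ 1 - (CMT - 1) / Gam (1 / 20) ^ 2 := by
  have h1 : 995 / 1000 ≤ Gam (1 / 20) := by
    have h := Gam_near (1 / 20)
    have h2 := CMT_hi
    have h3 : Real.pi ^ 2 ≤ 10 := by
      have := Real.pi_lt_d2
      have := Real.pi_pos
      nlinarith
    have h4 : (2 * Real.pi * (1 / 20)) ^ 2 / 2 = Real.pi ^ 2 / 200 := by ring
    rw [h4] at h
    have h5 : Real.pi ^ 2 / 200 * (CMT - 5 / 4) ≤ 10 / 200 * (239 / 180 - 5 / 4) := by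
      have h6 := CMT_ge
      exact mul_le_mul (by linarith) (by linarith) (by linarith) (by norm_num)
    norm_num at h5
    linarith
  refine of_sq (by linarith) ?_ rfl
  have := CMT_hi
  nlinarith

lemma val_2 : 6 / 25 ≤ 1 - (CMT - 1) / Gam (1 / 2) ^ 2 := by
  have h1 : 657 / 1000 ≤ Gam (1 / 2) := by
    have h := Gam_half_eq
    have h1 := CMT_lo
    have h2 := Real.pi_gt_d4
    have h3 := Real.pi_lt_d4
    have h4 : 0 < Real.pi ^ 2 - 2 := by nlinarith
    by_contra hlt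
    push Not at hlt
    have h5 : (Real.pi ^ 2 - 2) * Gam (1 / 2) < (Real.pi ^ 2 - 2) * (657 / 1000) := mul_lt_mul_of_pos_left hlt h4
    nlinarith
  refine of_sq (by linarith) ?_ rfl
  have := CMT_hi
  nlinarith

lemma val_3 : 53 / 100 ≤ 1 - (CMT - 1) / Gam (1 / 3) ^ 2 := by
  have h1 : 8355 / 10000 ≤ Gam (1 / 3) := by
    have h := Gam_closed (1 / 3)
    have e : Real.pi * (1 / 3) = Real.pi / 3 := by ring
    rw [e, Real.cos_pi_div_three, Real.sin_pi_div_three] at h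
    have h1 := CMT_lo
    have h2 := Real.pi_gt_d4
    have h3 := Real.pi_lt_d4
    have h4 : 0 < 2 * Real.pi ^ 2 / 9 - 1 := by nlinarith
    have h3' : (17320 : ℝ) / 10000 ≤ Real.sqrt 3 := Real.le_sqrt_of_sq_le (by norm_num)
    by_contra hlt
    push Not at hlt
    have h5 : (2 * Real.pi ^ 2 / 9 - 1) * Gam (1 / 3) < (2 * Real.pi ^ 2 / 9 - 1) * (8355 / 10000) :=
      mul_lt_mul_of_pos_left hlt h4
    have h6 : 31415 / 10000 * (8274 / 10000) * (17320 / 10000) ≤ Real.pi * (CMT - 1 / 2) * Real.sqrt 3 := by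
      refine mul_le_mul (mul_le_mul (by linarith) (by linarith) (by norm_num) Real.pi_pos.le) h3' (by norm_num) ?_
      have := Real.pi_pos
      have : 0 ≤ CMT - 1 / 2 := by linarith
      positivity
    have h7 : (2 * Real.pi ^ 2 / 9 - 1) * Gam (1 / 3) = Real.pi * (CMT - 1 / 2) * Real.sqrt 3 / 3 - 1 / 2 := by
      linear_combination -h
    nlinarith
  refine of_sq (by linarith) ?_ rfl
  have := CMT_hi
  nlinarith

end Pool.Agent.Helper65.RT
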