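import Pool.Agent.Helper60.RT.Defs

/-!
# RT-D2, part 1: the family near a slope is in the region of the forms, the Lipschitz constant of `A₄`
-/

open MeasureTheory Real Set Filter Topology

set_option autoImplicit false

namespace Pool.Agent.Helper60.RT

open Pool.Agent.Helper60.LT (Fr Tf xf yf df vf fr)
open Pool.Agent.Helper60.QL (R3 OM)

/-- the algebra of the family: `s² det² / T² ... = (x - x₀)(x₈ - x)` -/
theorem fam65 {e : Fr} {t s : ℝ} (h1 : l1 e t ≠ 0) (h2 : l2 e t ≠ 0) (hT : T2 e t s ≠ 0) :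
    (xs e t s - x0 e t) * (x8 e t - xs e t s) = (s * df e / T2 e t s) ^ 2 := by
  have hd : df e = l1 e t * e.2.2 - l2 e t * e.2.1 := by
    unfold df l1 l2
    ring
  have a1 : xs e t s - x0 e t = s ^ 2 * l2 e t * df e / (l1 e t * T2 e t s) := by
    rw [hd]
    unfold xs x0
    rw [div_sub_div _ _ hT h1, div_eq_div_iff (mul_ne_zero hT h1) (mul_ne_zero h1 hT)]
    unfold T2
    ring
  have a2 : x8 e t - xs e t s = l1 e t * df e / (l2 e t * T2 e t s) := by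
    rw [hd]
    unfold xs x8
    rw [div_sub_div _ _ h2 hT, div_eq_div_iff (mul_ne_zero h2 hT) (mul_ne_zero h2 hT)]
    unfold T2
    ring
  rw [a1, a2]
  field_simp

/-- `A₄ = a (x² - y²/4)` on the family -/
theorem A4_fam65 {e : Fr} {t s a : ℝ} (h1 : l1 e t ≠ 0) (h2 : l2 e t ≠ 0) (hT : T2 e t s ≠ 0) (ha : a ≠ 0) :
    A4 e t (a, -(xs e t s * a)) = a * (xs e t s ^ 2 - (s * df e / T2 e t s) ^ 2 / 4) := by
  rw [← fam65 h1 h2 hT]
  unfold A4
  simp only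
  field_simp
  ring

/-- the bounds of the family -/
theorem fam_bd65 {e : Fr} (he : 0 < df e) {B : ℝ} (hB : 1 ≤ B) : ∃ c C P : ℝ, 0 < c ∧ 1 ≤ C ∧ 1 ≤ P ∧ |e.2.1| ≤ P ∧ |e.2.2| ≤ P ∧
    ∀ t : ℝ, |t| ≤ 3 → |l1 e t| ≤ P ∧ |l2 e t| ≤ P ∧ ∀ s ∈ Icc B⁻¹ B, 0 < T2 e t s ∧ c ≤ c2 e t s ∧ c2 e t s ≤ C ∧ |xs e t s| ≤ C ∧
      c ≤ (s * df e / T2 e t s) ^ 2 ∧ (s * df e / T2 e t s) ^ 2 ≤ C := by
  obtain ⟨P, hP⟩ : ∃ P, P = 1 + |e.1.1| + |e.1.2| + 3 * |e.2.1| + 3 * |e.2.2| := ⟨_, rfl⟩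
  have n1 := abs_nonneg e.1.1
  have n2 := abs_nonneg e.1.2
  have n3 := abs_nonneg e.2.1
  have n4 := abs_nonneg e.2.2
  have hP1 : 1 ≤ P := by rw [hP]; linarith
  have hB0 : 0 < B := by linarith
  obtain ⟨D, hD⟩ : ∃ D, D = df e := ⟨_, rfl⟩
  rw [← hD] at he
  obtain ⟨u, hu⟩ : ∃ u, u = D ^ 2 / (2 * P ^ 2 * B ^ 2) := ⟨_, rfl⟩
  obtain ⟨v, hv⟩ : ∃ v, v = 2 * B ^ 2 * P ^ 2 := ⟨_, rfl⟩
  have hu0 : 0 < u := by rw [hu]; positivity
  have hv0 : 0 < v := by rw [hv]; positivity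
  obtain ⟨C, hC⟩ : ∃ C, C = 1 + B ^ 2 * D ^ 2 / (2 * (u * √u)) + v / u + (B * D / u) ^ 2 := ⟨_, rfl⟩
  obtain ⟨c, hc⟩ : ∃ c, c = min ((B⁻¹) ^ 2 * D ^ 2 / (2 * (v * √v))) ((B⁻¹ * D / v) ^ 2) := ⟨_, rfl⟩
  have p1 : 0 ≤ B ^ 2 * D ^ 2 / (2 * (u * √u)) := by positivity
  have p2 : 0 ≤ v / u := by positivity
  have p3 : 0 ≤ (B * D / u) ^ 2 := by positivity
  have hc0 : 0 < c := by
    rw [hc]
    refine lt_min ?_ ?_
    · positivity
    · positivity
  refine ⟨c, C, P, hc0, by rw [hC]; linarith, hP1, by rw [hP]; linarith, by rw [hP]; linarith, fun t ht => ?_⟩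
  have hl1 : |l1 e t| ≤ P := by
    unfold l1
    refine (abs_add_le _ _).trans ?_
    rw [abs_mul]
    have := mul_le_mul_of_nonneg_right ht n3
    rw [hP]
    linarith
  have hl2 : |l2 e t| ≤ P := by
    unfold l2
    refine (abs_add_le _ _).trans ?_
    rw [abs_mul]
    have := mul_le_mul_of_nonneg_right ht n4
    rw [hP]
    linarith
  refine ⟨hl1, hl2, fun s hs => ?_⟩
  have hs0 : 0 < s := lt_of_lt_of_le (by positivity) hs.1
  have hs1 : s ≤ B := hs.2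
  have hs2 : 1 ≤ B * s := by
    have := mul_le_mul_of_nonneg_left hs.1 hB0.le
    rwa [mul_inv_cancel₀ hB0.ne'] at this
  have q1 : l1 e t ^ 2 ≤ P ^ 2 := by
    rw [← sq_abs]
    exact pow_le_pow_left₀ (abs_nonneg _) hl1 2
  have q2 : l2 e t ^ 2 ≤ P ^ 2 := by
    rw [← sq_abs]
    exact pow_le_pow_left₀ (abs_nonneg _) hl2 2
  have hs3 : s ^ 2 ≤ B ^ 2 := pow_le_pow_left₀ hs0.le hs1 2
  have hB2 : 1 ≤ B ^ 2 := one_le_pow₀ hB
  have hTup : T2 e t s ≤ v := by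
    unfold T2
    rw [hv]
    have g1 : s ^ 2 * l2 e t ^ 2 ≤ B ^ 2 * P ^ 2 := mul_le_mul hs3 q2 (by positivity) (by positivity)
    have g2 : 1 * P ^ 2 ≤ B ^ 2 * P ^ 2 := mul_le_mul_of_nonneg_right hB2 (by positivity)
    linarith
  have hTlo : u ≤ T2 e t s := by
    have hd : D = l1 e t * e.2.2 - l2 e t * e.2.1 := by
      rw [hD]
      unfold df l1 l2
      ring
    have g1 : |D| ≤ |l1 e t| * P + |l2 e t| * P := by
      rw [hd]
      have k1 : |l1 e t * e.2.2| ≤ |l1 e t| * P := by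
        rw [abs_mul]
        exact mul_le_mul_of_nonneg_left (by rw [hP]; linarith) (abs_nonneg _)
      have k2 : |l2 e t * e.2.1| ≤ |l2 e t| * P := by
        rw [abs_mul]
        exact mul_le_mul_of_nonneg_left (by rw [hP]; linarith) (abs_nonneg _)
      have := abs_sub (l1 e t * e.2.2) (l2 e t * e.2.1)
      linarith
    have g2 : D ^ 2 ≤ 2 * P ^ 2 * (l1 e t ^ 2 + l2 e t ^ 2) := by
      have k1 := pow_le_pow_left₀ (abs_nonneg D) g1 2
      rw [sq_abs] at k1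
      have k2 : (|l1 e t| * P + |l2 e t| * P) ^ 2 ≤ 2 * P ^ 2 * (|l1 e t| ^ 2 + |l2 e t| ^ 2) := by
        nlinarith [sq_nonneg ((|l1 e t| - |l2 e t|) * P)]
      rw [sq_abs, sq_abs] at k2
      linarith
    have g3 : l1 e t ^ 2 + l2 e t ^ 2 ≤ B ^ 2 * T2 e t s := by
      unfold T2
      have k1 : 1 * l1 e t ^ 2 ≤ B ^ 2 * l1 e t ^ 2 := mul_le_mul_of_nonneg_right hB2 (by positivity)
      have k2 : (1 : ℝ) ^ 2 ≤ (B * s) ^ 2 := pow_le_pow_left₀ (by norm_num) hs2 2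
      have k3 : (1 : ℝ) ^ 2 * l2 e t ^ 2 ≤ (B * s) ^ 2 * l2 e t ^ 2 := mul_le_mul_of_nonneg_right k2 (by positivity)
      have k4 : (B * s) ^ 2 * l2 e t ^ 2 = B ^ 2 * (s ^ 2 * l2 e t ^ 2) := by ring
      linarith
    rw [hu, div_le_iff₀ (by positivity)]
    calc D ^ 2 ≤ 2 * P ^ 2 * (l1 e t ^ 2 + l2 e t ^ 2) := g2
      _ ≤ 2 * P ^ 2 * (B ^ 2 * T2 e t s) := mul_le_mul_of_nonneg_left g3 (by positivity)
      _ = T2 e t s * (2 * P ^ 2 * B ^ 2) := by ring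
  have hT0 : 0 < T2 e t s := hu0.trans_le hTlo
  have r1 : √u ≤ √(T2 e t s) := Real.sqrt_le_sqrt hTlo
  have r2 : √(T2 e t s) ≤ √v := Real.sqrt_le_sqrt hTup
  have r0 : 0 < √u := Real.sqrt_pos.2 hu0
  have w1 : u * √u ≤ T2 e t s * √(T2 e t s) := mul_le_mul hTlo r1 r0.le hT0.le
  have w2 : T2 e t s * √(T2 e t s) ≤ v * √v := mul_le_mul hTup r2 (Real.sqrt_nonneg _) hv0.le
  have w0 : 0 < u * √u := mul_pos hu0 r0
  refine ⟨hT0, ?_, ?_, ?_, ?_, ?_⟩
  · refine (by rw [hc]; exact min_le_left _ _ : c ≤ (B⁻¹) ^ 2 * D ^ 2 / (2 * (v * √v))).trans ?_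
    unfold c2
    rw [← hD]
    refine div_le_div₀ (by positivity) ?_ (by linarith) (by linarith)
    exact mul_le_mul_of_nonneg_right (pow_le_pow_left₀ (by positivity) hs.1 2) (by positivity)
  · have : c2 e t s ≤ B ^ 2 * D ^ 2 / (2 * (u * √u)) := by
      unfold c2
      rw [← hD]
      refine div_le_div₀ (by positivity) ?_ (by linarith) (by linarith)
      exact mul_le_mul_of_nonneg_right hs3 (by positivity)
    rw [hC]
    linarith
  · have : |xs e t s| ≤ v / u := by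
      unfold xs
      rw [abs_div, abs_of_pos hT0]
      refine div_le_div₀ hv0.le ?_ hu0 hTlo
      refine (abs_add_le _ _).trans ?_
      rw [abs_mul, abs_mul, abs_mul, abs_of_pos (by positivity : 0 < s ^ 2), hv]
      have k1 : |l1 e t| * |e.2.1| ≤ P * P := mul_le_mul hl1 (by rw [hP]; linarith) n3 (by linarith)
      have k2 : |l2 e t| * |e.2.2| ≤ P * P := mul_le_mul hl2 (by rw [hP]; linarith) n4 (by linarith)
      have k3 : s ^ 2 * (|l2 e t| * |e.2.2|) ≤ B ^ 2 * (P * P) := mul_le_mul hs3 k2 (by positivity) (by positivity)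
      have k4 : 1 * (P * P) ≤ B ^ 2 * (P * P) := mul_le_mul_of_nonneg_right hB2 (by positivity)
      have k5 : B ^ 2 * (P * P) = B ^ 2 * P ^ 2 := by ring
      rw [k5] at k3 k4
      linarith
    rw [hC]
    linarith
  · refine (by rw [hc]; exact min_le_right _ _ : c ≤ (B⁻¹ * D / v) ^ 2).trans ?_
    rw [← hD]
    refine pow_le_pow_left₀ (by positivity) ?_ 2
    refine div_le_div₀ (by positivity) ?_ hT0 hTup
    exact mul_le_mul_of_nonneg_right hs.1 he.le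
  · have : (s * df e / T2 e t s) ^ 2 ≤ (B * D / u) ^ 2 := by
      rw [← hD]
      refine pow_le_pow_left₀ (by positivity) ?_ 2
      refine div_le_div₀ (by positivity) ?_ hu0 hTlo
      exact mul_le_mul_of_nonneg_right hs1 he.le
    rw [hC]
    linarith

/-- the family is in the region of the forms, `A₄` is Lipschitz with constant `K/σ` -/
theorem OR_em65 {e : Fr} (he : 0 < df e) {B : ℝ} (hB : 1 ≤ B) : ∃ B₁ K : ℝ, 1 ≤ B₁ ∧ 1 ≤ K ∧ ∀ (X σ t : ℝ), 0 < X → |t| ≤ 3 → 0 < σ →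
    σ ≤ |l1 e t * l2 e t| → σ ≤ K ∧ ∀ A ∈ OR e t B X, em e t A ∈ OM B₁ X ∧ ∀ A' ∈ OR e t B X, ∀ ρ : ℝ, |A.1 - A'.1| ≤ ρ → |A.2 - A'.2| ≤ ρ →
      |A4 e t A - A4 e t A'| ≤ K / σ * ρ := by
  obtain ⟨c, C, P, hc, hC, hP, he1, he2, H⟩ := fam_bd65 he hB
  have hB0 : 0 < B := by linarith
  have hC0 : 0 < C := by linarith
  have hP0 : 0 < P := by linarith
  obtain ⟨W, hW⟩ : ∃ W, W = C + B ^ 2 * C ^ 2 / c := ⟨_, rfl⟩
  have hW0 : 0 < W := by rw [hW]; positivity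
  have hWC : C ≤ W := by
    rw [hW]
    have : 0 ≤ B ^ 2 * C ^ 2 / c := by positivity
    linarith
  refine ⟨1 + B / c + B * C + B * C ^ 2 + B * C * (C ^ 2 + C) + 4 * B ^ 2 / c ^ 3, P ^ 2 * (1 + 2 * (W * W + 2 * W)), ?_, ?_, fun X σ t hX ht hσ hσl => ?_⟩
  · have h1 : 0 ≤ B / c := by positivity
    have h2 : 0 ≤ B * C := by positivity
    have h3 : 0 ≤ B * C ^ 2 := by positivity
    have h4 : 0 ≤ B * C * (C ^ 2 + C) := by positivity
    have h5 : 0 ≤ 4 * B ^ 2 / c ^ 3 := by positivity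
    linarith
  · have h1 : 1 ≤ P ^ 2 := one_le_pow₀ hP
    have h2 : 1 ≤ 1 + 2 * (W * W + 2 * W) := by
      have : 0 ≤ 2 * (W * W + 2 * W) := by positivity
      linarith
    exact one_le_mul_of_one_le_of_one_le h1 h2
  obtain ⟨hl1, hl2, Hs⟩ := H t ht
  have hl12 : l1 e t * l2 e t ≠ 0 := by
    intro h0
    rw [h0, abs_zero] at hσl
    linarith
  have n1 : l1 e t ≠ 0 := left_ne_zero_of_mul hl12
  have n2 : l2 e t ≠ 0 := right_ne_zero_of_mul hl12
  have hσP : σ ≤ P ^ 2 := by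
    refine hσl.trans ?_
    rw [abs_mul, sq]
    exact mul_le_mul hl1 hl2 (abs_nonneg _) hP0.le
  have hW2 : 0 ≤ 2 * (W * W + 2 * W) := by positivity
  refine ⟨?_, ?_⟩
  · have : P ^ 2 * 1 ≤ P ^ 2 * (1 + 2 * (W * W + 2 * W)) := mul_le_mul_of_nonneg_left (by linarith) (by positivity)
    linarith
  -- the coordinates of a member
  have key : ∀ A ∈ OR e t B X, ∃ s ∈ Icc B⁻¹ B, A.2 = -(xs e t s * A.1) ∧ X * c ≤ B * A.1 ∧ A.1 ≤ B * X * C := by
    rintro A ⟨⟨r, s⟩, ⟨hr, hs⟩, rfl⟩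
    obtain ⟨-, h1, h2, -⟩ := Hs s hs
    simp only at hr hs
    refine ⟨s, hs, rfl, ?_, ?_⟩
    · show X * c ≤ B * (r * c2 e t s)
      have g1 : X ≤ B * r := by
        have := hr.1
        rw [div_le_iff₀ hB0] at this
        linarith
      calc X * c ≤ B * r * c2 e t s := mul_le_mul g1 h1 hc.le (hX.le.trans g1)
        _ = B * (r * c2 e t s) := by ring
    · show r * c2 e t s ≤ B * X * C
      have hr0 : 0 ≤ r := le_trans (by positivity) hr.1
      exact mul_le_mul hr.2 h2 (hc.le.trans h1) (by positivity)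
  intro A hA
  obtain ⟨s, hs, k1, k2, k3⟩ := key A hA
  obtain ⟨hT, h1, h2, h3, h4, h5⟩ := Hs s hs
  have ha : 0 < A.1 := by
    by_contra hcon
    push Not at hcon
    have : B * A.1 ≤ 0 := mul_nonpos_of_nonneg_of_nonpos hB0.le hcon
    have : 0 < X * c := by positivity
    linarith
  have hA4 : A4 e t A = A.1 * (xs e t s ^ 2 - (s * df e / T2 e t s) ^ 2 / 4) := by
    have e1 : A = (A.1, -(xs e t s * A.1)) := Prod.ext rfl k1
    rw [e1]
    exact A4_fam65 n1 n2 hT.ne' ha.ne'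
  have hx2 : xs e t s ^ 2 ≤ C ^ 2 := by
    rw [← sq_abs]
    exact pow_le_pow_left₀ (abs_nonneg _) h3 2
  have hb : |A.2| ≤ C * A.1 := by
    rw [k1, abs_neg, abs_mul, abs_of_pos ha]
    exact mul_le_mul_of_nonneg_right h3 ha.le
  have s1 : 0 ≤ B / c := by positivity
  have s2 : 0 ≤ B * C := by positivity
  have s3 : 0 ≤ B * C ^ 2 := by positivity
  have s4 : 0 ≤ B * C * (C ^ 2 + C) := by positivity
  have s5 : 0 ≤ 4 * B ^ 2 / c ^ 3 := by positivity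
  refine ⟨⟨?_, ?_, ?_, ?_, ?_⟩, fun A' hA' ρ d1 d2 => ?_⟩
  · show X ≤ _ * A.1
    have g1 : X ≤ B / c * A.1 := by
      rw [div_mul_eq_mul_div, le_div_iff₀ hc]
      exact k2
    refine g1.trans (mul_le_mul_of_nonneg_right (by linarith) ha.le)
  · show A.1 ≤ _ * X
    have g1 : A.1 ≤ B * C * X := by linarith [k3, (by ring : B * X * C = B * C * X)]
    refine g1.trans (mul_le_mul_of_nonneg_right (by linarith) hX.le)
  · show |A.2| ≤ _ * X
    have g1 : |A.2| ≤ B * C ^ 2 * X := by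
      calc |A.2| ≤ C * A.1 := hb
        _ ≤ C * (B * X * C) := mul_le_mul_of_nonneg_left k3 hC0.le
        _ = B * C ^ 2 * X := by ring
    refine g1.trans (mul_le_mul_of_nonneg_right (by linarith) hX.le)
  · show |A4 e t A| ≤ _ * X
    have g1 : |A4 e t A| ≤ B * C * (C ^ 2 + C) * X := by
      rw [hA4, abs_mul, abs_of_pos ha]
      have g2 : |xs e t s ^ 2 - (s * df e / T2 e t s) ^ 2 / 4| ≤ C ^ 2 + C := by
        rw [abs_le]
        have q1 := sq_nonneg (xs e t s)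
        have q2 := sq_nonneg (s * df e / T2 e t s)
        constructor <;> nlinarith
      calc A.1 * |xs e t s ^ 2 - (s * df e / T2 e t s) ^ 2 / 4| ≤ B * X * C * (C ^ 2 + C) :=
            mul_le_mul k3 g2 (abs_nonneg _) (by positivity)
        _ = B * C * (C ^ 2 + C) * X := by ring
    refine g1.trans (mul_le_mul_of_nonneg_right (by linarith) hX.le)
  · show X ^ 2 ≤ _ * (A.2 ^ 2 - A4 e t A * A.1)
    have e1 : A.2 ^ 2 - A4 e t A * A.1 = A.1 ^ 2 * ((s * df e / T2 e t s) ^ 2 / 4) := by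
      rw [hA4, k1]
      ring
    rw [e1]
    have g1 : X ^ 2 * c ^ 2 ≤ B ^ 2 * A.1 ^ 2 := by
      have := pow_le_pow_left₀ (by positivity) k2 2
      rw [mul_pow, mul_pow] at this
      exact this
    have g2 : X ^ 2 ≤ 4 * B ^ 2 / c ^ 3 * (A.1 ^ 2 * ((s * df e / T2 e t s) ^ 2 / 4)) := by
      rw [div_mul_eq_mul_div, le_div_iff₀ (by positivity)]
      calc X ^ 2 * c ^ 3 = X ^ 2 * c ^ 2 * c := by ring
        _ ≤ B ^ 2 * A.1 ^ 2 * (s * df e / T2 e t s) ^ 2 := mul_le_mul g1 h4 hc.le (by positivity)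
        _ = 4 * B ^ 2 * (A.1 ^ 2 * ((s * df e / T2 e t s) ^ 2 / 4)) := by ring
    refine g2.trans (mul_le_mul_of_nonneg_right (by linarith) (by positivity))
  · -- the Lipschitz bound
    obtain ⟨s', hs', k1', k2', k3'⟩ := key A' hA'
    obtain ⟨hT', h1', h2', h3', h4', h5'⟩ := Hs s' hs'
    have hρ : 0 ≤ ρ := (abs_nonneg _).trans d1
    have ha' : 0 < A'.1 := by
      by_contra hcon
      push Not at hcon
      have : B * A'.1 ≤ 0 := mul_nonpos_of_nonneg_of_nonpos hB0.le hcon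
      have : 0 < X * c := by positivity
      linarith
    have hb' : |A'.2| ≤ C * A'.1 := by
      rw [k1', abs_neg, abs_mul, abs_of_pos ha']
      exact mul_le_mul_of_nonneg_right h3' ha'.le
    have hba : |A.2 / A.1| ≤ W := by
      rw [abs_div, abs_of_pos ha, div_le_iff₀ ha]
      exact hb.trans (mul_le_mul_of_nonneg_right hWC ha.le)
    have hba' : |A.2 / A'.1| ≤ W := by
      rw [abs_div, abs_of_pos ha', div_le_iff₀ ha']
      have g1 : X ≤ B / c * A'.1 := by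
        rw [div_mul_eq_mul_div, le_div_iff₀ hc]
        exact k2'
      calc |A.2| ≤ C * A.1 := hb
        _ ≤ C * (B * X * C) := mul_le_mul_of_nonneg_left k3 hC0.le
        _ = B * C ^ 2 * X := by ring
        _ ≤ B * C ^ 2 * (B / c * A'.1) := mul_le_mul_of_nonneg_left g1 (by positivity)
        _ = B ^ 2 * C ^ 2 / c * A'.1 := by ring
        _ ≤ W * A'.1 := mul_le_mul_of_nonneg_right (by rw [hW]; linarith) ha'.le
    have hbb' : |A'.2 / A'.1| ≤ W := by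
      rw [abs_div, abs_of_pos ha', div_le_iff₀ ha']
      exact hb'.trans (mul_le_mul_of_nonneg_right hWC ha'.le)
    have e1 : A4 e t A - A4 e t A' = 5 / 4 * (A.2 / A.1 * (A.2 / A'.1) * (A'.1 - A.1) + (A.2 / A'.1 + A'.2 / A'.1) * (A.2 - A'.2)) +
        (x0 e t + x8 e t) / 4 * (A.2 - A'.2) + x0 e t * x8 e t / 4 * (A.1 - A'.1) := by
      unfold A4
      field_simp
      ring
    have ab : ∀ {x y u v : ℝ}, |x| ≤ u → |y| ≤ v → |x * y| ≤ u * v := by
      intro x y u v h h'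
      rw [abs_mul]
      exact mul_le_mul h h' (abs_nonneg _) ((abs_nonneg _).trans h)
    have hlσ : σ ≤ |l1 e t| * |l2 e t| := by
      rw [← abs_mul]
      exact hσl
    have p1 : 0 < |l1 e t| := abs_pos.2 n1
    have p2 : 0 < |l2 e t| := abs_pos.2 n2
    have hx0 : |x0 e t| ≤ P ^ 2 / σ := by
      unfold x0
      rw [abs_div, div_le_div_iff₀ p1 hσ]
      calc |e.2.1| * σ ≤ P * (|l1 e t| * |l2 e t|) := mul_le_mul he1 hlσ hσ.le hP0.le
        _ ≤ P * (|l1 e t| * P) := by gcongr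
        _ = P ^ 2 * |l1 e t| := by ring
    have hx8 : |x8 e t| ≤ P ^ 2 / σ := by
      unfold x8
      rw [abs_div, div_le_div_iff₀ p2 hσ]
      calc |e.2.2| * σ ≤ P * (|l1 e t| * |l2 e t|) := mul_le_mul he2 hlσ hσ.le hP0.le
        _ ≤ P * (P * |l2 e t|) := by gcongr
        _ = P ^ 2 * |l2 e t| := by ring
    have hx08 : |x0 e t * x8 e t| ≤ P ^ 2 / σ := by
      unfold x0 x8
      rw [div_mul_div_comm, abs_div, div_le_div_iff₀ (abs_pos.2 hl12) hσ, abs_mul]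
      calc |e.2.1| * |e.2.2| * σ ≤ P * P * |l1 e t * l2 e t| :=
            mul_le_mul (mul_le_mul he1 he2 (abs_nonneg _) hP0.le) hσl hσ.le (by positivity)
        _ = P ^ 2 * |l1 e t * l2 e t| := by ring
    have hone : 1 ≤ P ^ 2 / σ := by
      rw [le_div_iff₀ hσ]
      linarith
    have d1' : |A'.1 - A.1| ≤ ρ := by
      rw [abs_sub_comm]
      exact d1
    have t1 : |A.2 / A.1 * (A.2 / A'.1) * (A'.1 - A.1)| ≤ W * W * ρ := ab (ab hba hba') d1'
    have t2 : |(A.2 / A'.1 + A'.2 / A'.1) * (A.2 - A'.2)| ≤ (W + W) * ρ :=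
      ab ((abs_add_le _ _).trans (add_le_add hba' hbb')) d2
    have t3 : |(x0 e t + x8 e t) / 4 * (A.2 - A'.2)| ≤ P ^ 2 / σ / 2 * ρ := by
      refine ab ?_ d2
      rw [abs_div, abs_of_pos (by norm_num : (0 : ℝ) < 4)]
      have := (abs_add_le (x0 e t) (x8 e t)).trans (add_le_add hx0 hx8)
      linarith
    have t4 : |x0 e t * x8 e t / 4 * (A.1 - A'.1)| ≤ P ^ 2 / σ / 4 * ρ := by
      refine ab ?_ d1
      rw [abs_div, abs_of_pos (by norm_num : (0 : ℝ) < 4)]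
      linarith
    have t5 : |5 / 4 * (A.2 / A.1 * (A.2 / A'.1) * (A'.1 - A.1) + (A.2 / A'.1 + A'.2 / A'.1) * (A.2 - A'.2))| ≤
        5 / 4 * (W * W * ρ + (W + W) * ρ) := by
      rw [abs_mul, abs_of_pos (by norm_num : (0 : ℝ) < 5 / 4)]
      exact mul_le_mul_of_nonneg_left ((abs_add_le _ _).trans (add_le_add t1 t2)) (by norm_num)
    have t6 : 5 / 4 * (W * W * ρ + (W + W) * ρ) ≤ P ^ 2 / σ * (2 * (W * W + 2 * W)) * ρ := by
      have g1 : 5 / 4 * (W * W * ρ + (W + W) * ρ) = 5 / 4 * (W * W + 2 * W) * ρ := by ring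
      rw [g1]
      refine mul_le_mul_of_nonneg_right ?_ hρ
      have g2 : 1 * (2 * (W * W + 2 * W)) ≤ P ^ 2 / σ * (2 * (W * W + 2 * W)) := mul_le_mul_of_nonneg_right hone hW2
      linarith
    rw [e1]
    refine (abs_add_le _ _).trans ((add_le_add ((abs_add_le _ _).trans (add_le_add t5 t3)) t4).trans ?_)
    have g3 : P ^ 2 * (1 + 2 * (W * W + 2 * W)) / σ * ρ = P ^ 2 / σ * ρ + P ^ 2 / σ * (2 * (W * W + 2 * W)) * ρ := by ring
    rw [g3]
    have g4 : 0 ≤ P ^ 2 / σ * ρ := by positivity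
    have g5 : P ^ 2 / σ / 2 * ρ = P ^ 2 / σ * ρ / 2 := by ring
    have g6 : P ^ 2 / σ / 4 * ρ = P ^ 2 / σ * ρ / 4 := by ring
    rw [g5, g6]
    linarith

end Pool.Agent.Helper60.RT
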